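import Pool.Agent.H537.BI.Core
import Pool.Agent.H537.GP.Poly

/-! The second order term, uniformly in the polynomial. -/

set_option autoImplicit false
set_option maxHeartbeats 4000000

open Finset Polynomial Filter

namespace Pool.Agent.H537.BI

open Pool.Agent.H537.FG Pool.Agent.H537.FT Pool.Agent.N914.MR Pool.Agent.H537.GP

theorem cntW_ne {W : ℕ → ℝ} {y a m : ℕ} :
    |cntW (fun n => if n = a then 0 else W n) y a m - cntW W y a m| ≤ |W a| := by
  classical
  unfold cntW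
  rw [← sum_sub_distrib]
  have h1 : ∀ n ∈ (Icc 1 y).filter (fun n => n ≡ a [MOD m]), (if n = a then 0 else W n) - W n =
      if n = a then - W a else 0 := by
    intro n _
    split_ifs with h
    · rw [h]
      ring
    · ring
  rw [sum_congr rfl h1, sum_ite_eq']
  split_ifs
  · rw [abs_neg]
  · rw [abs_zero]
    exact abs_nonneg _

/-- the conditions on the size -/
theorem sizes (E B K1 R : ℝ) (hE : 0 < E) (hB : 0 < B) (hK1 : 0 < K1) (hR : 0 < R) (n0 : ℕ) :
    ∀ᶠ N : ℕ in atTop, 3 ≤ N ∧ 1 ≤ Real.log N ∧ 1 ≤ B * Real.log (Real.log N) + 1 ∧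
      2 * (B * Real.log (Real.log N) + 1) *
        (1 / Real.log N ^ (2 : ℝ) + Real.log N ^ (2 * B) / (N : ℝ) ^ (3 / 4 : ℝ)) ≤ 1 ∧
      R * Real.log N ^ (3 * B / 2) * (B * Real.log (Real.log N) + 1) ≤ (N : ℝ) ^ (1 / 2 : ℝ) ∧
      R * Real.log N ^ B * (B * Real.log (Real.log N) + 1) ≤ (N : ℝ) ^ (1 / 2 : ℝ) ∧
      K1 * (B * Real.log (Real.log N) + 1) ≤ Real.log N ∧
      (n0 : ℝ) ≤ N / Real.log N ^ B := by
  have hlog : Tendsto (fun X : ℕ => Real.log (X : ℝ)) atTop atTop :=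
    Real.tendsto_log_atTop.comp tendsto_natCast_atTop_atTop
  -- `t ≤ L / K` for every `K`
  have ht : ∀ K : ℝ, 0 < K → ∀ᶠ L : ℝ in atTop, K * (B * Real.log L + 1) ≤ L := by
    intro K hK
    have h1 := Real.isLittleO_log_id_atTop.bound (c := 1 / (2 * K * B)) (by positivity)
    filter_upwards [h1, eventually_ge_atTop (2 * K), eventually_ge_atTop (1 : ℝ)] with L h2 h3 h4
    have hl0 := Real.log_nonneg h4
    rw [id, Real.norm_of_nonneg hl0, Real.norm_of_nonneg (by linarith)] at h2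
    have e1 : K * B * Real.log L ≤ K * B * (1 / (2 * K * B) * L) := mul_le_mul_of_nonneg_left h2 (by positivity)
    have e2 : K * B * (1 / (2 * K * B) * L) = L / 2 := by field_simp
    linarith
  -- powers of `L` against powers of `N`
  have hp : ∀ (K s r : ℝ), 0 < K → 0 < r → ∀ᶠ L : ℝ in atTop, K * L ^ s ≤ Real.exp L ^ r := by
    intro K s r hK hr
    have h1 := (isLittleO_rpow_exp_pos_mul_atTop s hr).bound (c := 1 / K) (by positivity)
    filter_upwards [h1, eventually_ge_atTop (1 : ℝ)] with L h2 h4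
    rw [Real.norm_of_nonneg (Real.rpow_nonneg (by linarith) _), Real.norm_of_nonneg (Real.exp_pos _).le] at h2
    rw [← Real.exp_mul, mul_comm L r]
    calc K * L ^ s ≤ K * (1 / K * Real.exp (r * L)) := mul_le_mul_of_nonneg_left h2 hK.le
      _ = Real.exp (r * L) := by field_simp
  have e1 := hlog.eventually (ht 4 (by norm_num))
  have e2 := hlog.eventually (ht K1 hK1)
  have e3 := hlog.eventually (hp 4 (2 * B + 1) (3 / 4) (by norm_num) (by norm_num))
  have e4 := hlog.eventually (hp R (3 * B / 2 + 1) (1 / 2) hR (by norm_num))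
  have e5 := hlog.eventually (hp ((n0 : ℝ) + 1) B 1 (by positivity) one_pos)
  filter_upwards [e1, e2, e3, e4, e5, hlog.eventually_ge_atTop 1, eventually_ge_atTop 3]
    with N f1 f2 f3 f4 f5 f6 f7
  set L := Real.log (N : ℝ) with hL
  have hN0 : (0 : ℝ) < N := by
    have : 0 < N := by omega
    exact_mod_cast this
  have hL0 : 0 < L := by linarith
  have hexp : Real.exp L = N := by rw [hL, Real.exp_log hN0]
  rw [hexp] at f3 f4 f5
  have hll : 0 ≤ Real.log L := Real.log_nonneg f6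
  set t := B * Real.log L + 1 with ht'
  have ht1 : 1 ≤ t := by
    have : 0 ≤ B * Real.log L := by positivity
    linarith
  have htL : t ≤ L := by linarith
  refine ⟨f7, f6, ht1, ?_, ?_, ?_, f2, ?_⟩
  · have g1 : 2 * t * (1 / L ^ (2 : ℝ)) ≤ 1 / 2 := by
      rw [show (2 : ℝ) = ((2 : ℕ) : ℝ) by norm_num, Real.rpow_natCast]
      rw [mul_one_div, div_le_iff₀ (by positivity)]
      push_cast
      nlinarith
    have g2 : 2 * t * (L ^ (2 * B) / (N : ℝ) ^ (3 / 4 : ℝ)) ≤ 1 / 2 := by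
      have hN34 : 0 < (N : ℝ) ^ (3 / 4 : ℝ) := Real.rpow_pos_of_pos hN0 _
      rw [← mul_div_assoc, div_le_iff₀ hN34]
      rw [Real.rpow_add_one hL0.ne'] at f3
      have g3 : 0 ≤ L ^ (2 * B) := (Real.rpow_pos_of_pos hL0 _).le
      have g4 : t * L ^ (2 * B) ≤ L * L ^ (2 * B) := mul_le_mul_of_nonneg_right htL g3
      linarith
    linarith
  · rw [Real.rpow_add_one hL0.ne'] at f4
    refine le_trans ?_ f4
    rw [mul_assoc]
    apply mul_le_mul_of_nonneg_left _ hR.le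
    exact mul_le_mul_of_nonneg_left htL (Real.rpow_pos_of_pos hL0 _).le
  · rw [Real.rpow_add_one hL0.ne'] at f4
    refine le_trans ?_ f4
    rw [mul_assoc]
    apply mul_le_mul_of_nonneg_left _ hR.le
    apply mul_le_mul _ htL (by linarith) (Real.rpow_pos_of_pos hL0 _).le
    apply Real.rpow_le_rpow_of_exponent_le f6
    linarith
  · rw [le_div_iff₀ (Real.rpow_pos_of_pos hL0 _)]
    rw [Real.rpow_one] at f5
    refine le_trans ?_ f5
    apply mul_le_mul_of_nonneg_right _ (Real.rpow_pos_of_pos hL0 _).le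
    linarith

open Classical in
theorem biasG (k : ℕ) : ∃ C₀ : ℝ, 0 < C₀ ∧ ∃ M₀ : ℝ, 1 ≤ M₀ ∧ ∀ (E : ℝ), 0 < E → ∀ (n0 : ℕ) (B : ℝ), 0 < B →
    ∀ᶠ N : ℕ in atTop, ∀ (G : ℤ[X]) (W : ℕ → ℝ) (C : ℝ),
      G.natDegree ≤ k → (∀ a : ℕ, a ≤ N → ((G.eval (a : ℤ)).natAbs : ℝ) ≤ (N : ℝ) ^ E) →
      (∀ p : ℕ, p.Prime → omG G p < p) → 0 < C →
      (∀ n, n0 ≤ n → W n ≠ 0 → ∀ p : ℕ, p.Prime → (p : ℤ) ∣ G.eval (n : ℤ) → n ≤ p) →
      (∀ n, n ≤ N → |W n| ≤ C * (N : ℝ) ^ (1 / 4 : ℝ)) →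
      (∀ q a y : ℕ, 1 ≤ q → (q : ℝ) ≤ Real.log N ^ B → Int.gcd (G.eval (a : ℤ)) q = 1 →
        (N : ℝ) / Real.log N ^ B ≤ y → y ≤ N →
        |cntW W y a q - C * (1 / (rhoG G q : ℝ)) * y| ≤ C * (N / Real.log N ^ (2 * B + 2))) →
      ∀ Q a : ℕ, (N : ℝ) / Real.log N ^ B ≤ Q → (Q : ℝ) ≤ N / M₀ → 1 ≤ a → (a : ℝ) ≤ (N : ℝ) ^ (1 / 2 : ℝ) →
        (∀ p : ℕ, p.Prime → (p : ℤ) ∣ G.eval (a : ℤ) → Real.log N ^ (B + 3) < p) →
        |∑ q ∈ (Ioc Q (2 * Q)).filter (fun q : ℕ => Int.gcd (G.eval (a : ℤ)) q = 1),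
            (cntW (fun n => if n = a then 0 else W n) N a q - C * (1 / (rhoG G q : ℝ)) * N) +
            C * (Q / 2 * GG (hG G) (N / Q))| ≤ C₀ * (C * (Q * GG (hG G) (N / Q))) / Real.log ((N : ℝ) / Q) := by
  classical
  set Ch : ℝ := 2 * ((k : ℝ) + 1) ^ 2 with hCh
  have hCh0 : 0 ≤ Ch := by positivity
  have hCR := CR_pos Ch
  have hl4 : 0 < Real.log 4 := Real.log_pos (by norm_num)
  set c := Ch * Real.log 4 + 1 with hc
  have hc0 : 0 < c := by positivity
  refine ⟨2 * (37 * c + 4), by positivity, Real.exp (6 * c) + 4, by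
    have := Real.exp_pos (6 * c)
    linarith, fun E hE n0 B hB => ?_⟩
  filter_upwards [sizes E B ((1 + Ch) * CR Ch * 3 * (2 * E) * 2) (3 * CR Ch) hE hB (by positivity) (by positivity) n0]
    with N hsz
  obtain ⟨s1, s2, s3, s4, s5, s6, s7, s8⟩ := hsz
  intro G W C hdeg hsize hadm hC hW hWb hsmall Q a hQ1 hQ2 ha0 ha1 ha2
  set L := Real.log (N : ℝ) with hL
  set t := B * Real.log L + 1 with ht
  have hL0 : 0 < L := by linarith
  have hN0 : (0 : ℝ) < N := by
    have : 0 < N := by omega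
    exact_mod_cast this
  have hN1 : (1 : ℝ) ≤ N := by
    have : 1 ≤ N := by omega
    exact_mod_cast this
  have hLB : 0 < L ^ B := Real.rpow_pos_of_pos hL0 _
  have hLB1 : 1 ≤ L ^ B := Real.one_le_rpow s2 hB.le
  have ht0 : 0 < t := by linarith
  have hexp := Real.exp_pos (6 * c)
  have hQ0 : (0 : ℝ) < Q := lt_of_lt_of_le (by positivity) hQ1
  have hQn : 1 ≤ Q := by
    have : 0 < Q := by exact_mod_cast hQ0
    omega
  have hNh : (N : ℝ) ^ (1 / 2 : ℝ) * (N : ℝ) ^ (1 / 2 : ℝ) = N := by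
    rw [← Real.rpow_add hN0]
    norm_num
  have hNh0 : 0 < (N : ℝ) ^ (1 / 2 : ℝ) := Real.rpow_pos_of_pos hN0 _
  -- `a` is small
  have ha3 : a * (3 * CR Ch) ≤ Q / t := by
    rw [le_div_iff₀ ht0]
    refine le_trans ?_ hQ1
    rw [le_div_iff₀ hLB]
    calc a * (3 * CR Ch) * t * L ^ B ≤ (N : ℝ) ^ (1 / 2 : ℝ) * (3 * CR Ch) * t * L ^ B := by
          apply mul_le_mul_of_nonneg_right _ hLB.le
          apply mul_le_mul_of_nonneg_right _ ht0.le
          exact mul_le_mul_of_nonneg_right ha1 (by positivity)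
      _ = (N : ℝ) ^ (1 / 2 : ℝ) * (3 * CR Ch * L ^ B * t) := by ring
      _ ≤ (N : ℝ) ^ (1 / 2 : ℝ) * (N : ℝ) ^ (1 / 2 : ℝ) := mul_le_mul_of_nonneg_left s6 hNh0.le
      _ = N := hNh
  have hCR1 : 1 ≤ 3 * CR Ch := by
    have h1 : 1 ≤ CR Ch := by
      unfold CR
      apply Real.one_le_exp
      exact mul_nonneg hCh0 Z32_nonneg
    linarith
  have haQr : (a : ℝ) ≤ Q := by
    have h1 : (a : ℝ) ≤ a * (3 * CR Ch) := le_mul_of_one_le_right (Nat.cast_nonneg _) hCR1
    have h2 : (Q : ℝ) / t ≤ Q := div_le_self hQ0.le s3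
    linarith
  have haQ : a ≤ Q := by exact_mod_cast haQr
  have hNQ : (Real.exp (6 * c) + 4) * Q ≤ N := by
    rw [le_div_iff₀ (by linarith)] at hQ2
    linarith
  have hNQ' : (4 : ℝ) * Q ≤ N := by nlinarith
  have hNQn : 4 * Q ≤ N := by exact_mod_cast hNQ'
  have haN : a ≤ N := by omega
  set M := (N - a) / Q with hMd
  have hM1 : N < (M + 2) * Q := by
    have h1 : N - a < (M + 1) * Q := (Nat.div_lt_iff_lt_mul hQn).mp (Nat.lt_succ_self M)
    nlinarith [h1, haQ, haN, Nat.sub_add_cancel haN]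
  have hM1r : (N : ℝ) < (M + 2) * Q := by exact_mod_cast hM1
  have hM2 : Real.exp (6 * c) + 2 ≤ M := by
    have h1 : (Real.exp (6 * c) + 4) * Q < (M + 2) * Q := lt_of_le_of_lt hNQ hM1r
    have h2 := lt_of_mul_lt_mul_right h1 hQ0.le
    linarith
  have hM2n : 2 ≤ M := by
    have : (2 : ℝ) ≤ M := by linarith
    exact_mod_cast this
  have hM0 : (0 : ℝ) < M := by linarith
  have hlogM : 6 * c ≤ Real.log (M : ℝ) := by
    rw [Real.le_log_iff_exp_le hM0]
    linarith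
  have hMN : (M : ℝ) * Q ≤ N := by
    have h1 : M * Q ≤ N - a := Nat.div_mul_le_self _ Q
    have h2 : M * Q ≤ N := h1.trans (Nat.sub_le _ _)
    exact_mod_cast h2
  have hML : (M : ℝ) ≤ L ^ B := by
    have h1 : (M : ℝ) * (N / L ^ B) ≤ N := le_trans (mul_le_mul_of_nonneg_left hQ1 hM0.le) hMN
    rw [← mul_div_assoc, div_le_iff₀ hLB] at h1
    have h2 : (N : ℝ) * M ≤ N * L ^ B := by linarith
    exact le_of_mul_le_mul_left h2 hN0
  have hlM0 : 0 < Real.log (M : ℝ) := by linarith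
  have hlMt : Real.log (M : ℝ) ≤ t := by
    have h1 := Real.log_le_log hM0 hML
    rw [Real.log_rpow hL0] at h1
    linarith
  have hL3 : L ^ (B + 3) = L ^ B * L ^ 3 := by
    rw [Real.rpow_add hL0]
    congr 1
    rw [show (3 : ℝ) = ((3 : ℕ) : ℝ) by norm_num, Real.rpow_natCast]
  have hLLB : L ^ B ≤ L ^ (B + 3) := Real.rpow_le_rpow_of_exponent_le s2 (by linarith)
  have hMQ : M ≤ 2 * Q := by
    -- `M ≤ L ^ B ≤ N / L ^ B`
    have h1 : L ^ B * L ^ B ≤ N := by
      have h2 : L ^ B ≤ (N : ℝ) ^ (1 / 2 : ℝ) := by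
        refine le_trans ?_ s6
        have : 1 ≤ 3 * CR Ch * t := by nlinarith
        calc L ^ B = 1 * L ^ B := (one_mul _).symm
          _ ≤ (3 * CR Ch * t) * L ^ B := mul_le_mul_of_nonneg_right this hLB.le
          _ = _ := by ring
      calc L ^ B * L ^ B ≤ (N : ℝ) ^ (1 / 2 : ℝ) * (N : ℝ) ^ (1 / 2 : ℝ) := mul_le_mul h2 h2 hLB.le hNh0.le
        _ = N := hNh
    have h3 : (M : ℝ) ≤ 2 * Q := by
      have h4 : L ^ B ≤ N / L ^ B := by rwa [le_div_iff₀ hLB]
      linarith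
    exact_mod_cast h3
  -- the large primes
  set F := (G.eval (a : ℤ)).natAbs with hF
  have hdF : ∀ p : ℕ, p ∣ F ↔ (p : ℤ) ∣ G.eval (a : ℤ) := fun p => Int.natCast_dvd.symm
  have hS2 : 2 ≤ L ^ (B + 3) := by
    rw [hL3]
    have h1 : (2 : ℝ) ≤ M := by exact_mod_cast hM2n
    have h2 : 1 ≤ L ^ 3 := one_le_pow₀ s2
    nlinarith
  have hFne : F ≠ 0 := by
    intro h0
    have h1 := ha2 2 Nat.prime_two (by
      rw [← hdF 2, h0]
      exact dvd_zero _)
    push_cast at h1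
    linarith
  set A' : Finset ℕ := F.primeFactors with hA'
  set S := ⌊L ^ (B + 3)⌋₊ with hS
  have hS1 : 1 ≤ S := Nat.le_floor (by push_cast; linarith)
  have hSlow : L ^ (B + 3) / 2 ≤ S := by
    have h1 := Nat.lt_floor_add_one (L ^ (B + 3))
    rw [← hS] at h1
    have h2 : (1 : ℝ) ≤ S := by exact_mod_cast hS1
    linarith
  have hA'p : ∀ p ∈ A', p.Prime := fun p hp => Nat.prime_of_mem_primeFactors hp
  have hA'S : ∀ p ∈ A', S < p := by
    intro p hp
    have h1 := ha2 p (hA'p p hp) ((hdF p).mp (Nat.dvd_of_mem_primeFactors hp))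
    rw [hS, Nat.floor_lt (by positivity)]
    exact h1
  have hlogF : Real.log F ≤ E * L := by
    have hF0 : (0 : ℝ) < F := by exact_mod_cast Nat.pos_of_ne_zero hFne
    have e3 := Real.log_le_log hF0 (hsize a haN)
    rwa [Real.log_rpow hN0, ← hL] at e3
  have hcardA' : (A'.card : ℝ) ≤ 2 * E * L := by
    have e2 : 2 ^ A'.card ≤ F := by
      calc 2 ^ A'.card = ∏ _p ∈ A', 2 := by rw [prod_const]
        _ ≤ ∏ p ∈ A', p := prod_le_prod' fun p hp => (hA'p p hp).two_le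
        _ ≤ F := Nat.le_of_dvd (Nat.pos_of_ne_zero hFne) (Nat.prod_primeFactors_dvd F)
    have e3 : (2 : ℝ) ^ A'.card ≤ F := by exact_mod_cast e2
    have e4 := Real.log_le_log (by positivity) e3
    rw [Real.log_pow] at e4
    have e5 : (1 : ℝ) / 2 ≤ Real.log 2 := by
      have := Real.log_two_gt_d9
      linarith
    have e6 : (A'.card : ℝ) * (1 / 2) ≤ A'.card * Real.log 2 :=
      mul_le_mul_of_nonneg_left e5 (Nat.cast_nonneg _)
    linarith
  have hcop : ∀ q : ℕ, F.Coprime q ↔ Fr A' q := by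
    intro q
    constructor
    · intro h3 p hp hpq
      have h4 : p ∣ Nat.gcd F q := Nat.dvd_gcd (Nat.dvd_of_mem_primeFactors hp) hpq
      rw [h3] at h4
      exact (hA'p p hp).one_lt.ne' (Nat.dvd_one.mp h4)
    · intro h3
      by_contra hc
      obtain ⟨p, hp, hd⟩ := Nat.exists_prime_and_dvd hc
      exact h3 p (Nat.mem_primeFactors.mpr ⟨hp, hd.trans (Nat.gcd_dvd_left _ _), hFne⟩)
        (hd.trans (Nat.gcd_dvd_right _ _))
  have hom : ∀ p : ℕ, p.Prime → omG G p ≤ k := fun p hp => (omG_le hp (hadm p hp)).trans hdeg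
  have h0 : ∀ p, p.Prime → 0 ≤ hG G p := fun p hp => hG_nonneg (hadm p hp)
  have h1 : ∀ p, p.Prime → hG G p ≤ Ch / p := fun p hp => hG_le (hadm p hp) (hom p hp)
  set W' : ℕ → ℝ := fun n => if n = a then 0 else W n with hW'
  have hn0Q : (n0 : ℝ) ≤ Q := s8.trans hQ1
  set κ := C * (N / L ^ (2 * B + 2)) + C * (N : ℝ) ^ (1 / 4 : ℝ) with hκ
  have hcore := core h0 h1 hCh0 (X := N) (Q := Q) (a := a) (S := S) (W := W') (C := C) (κ := κ) (A' := A')
    hQn haQ haN (by rw [hW']; simp) hM2n hlogM hMQ hA'p hA'S hS1 hC.le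
    (by
      intro q m hq1 hq2 hm1 hm2 hR p hp hpq
      have hqm : q ≤ q * m := Nat.le_mul_of_pos_right q hm1
      have hWn : W (a + q * m) ≠ 0 := by
        intro h3
        apply hR
        rw [hW']
        simp only
        split_ifs
        · rfl
        · exact h3
      have h5 : a + q * m ≡ a [MOD p] := by
        have h6 : a + q * m ≡ a [MOD q] := by
          unfold Nat.ModEq
          simp
        exact h6.of_dvd hpq
      have hpp := hA'p p hp
      have h6 : (p : ℤ) ∣ G.eval ((a + q * m : ℕ) : ℤ) :=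
        (dvd_congr G h5).mpr ((hdF p).mp (Nat.dvd_of_mem_primeFactors hp))
      have h7 : n0 ≤ a + q * m := by
        have h8 : n0 ≤ Q := by exact_mod_cast hn0Q
        omega
      have h9 := hW _ h7 hWn p hpp h6
      have h8 := Nat.le_of_dvd (by omega) hpq
      omega)
    (by
      intro m y hm1 hmM hy1 hy2
      have hmc : Int.gcd (G.eval (a : ℤ)) m = 1 := by
        change F.Coprime m
        rw [hcop]
        intro p hp hpm
        have h3 := Nat.le_of_dvd hm1 hpm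
        have h4 := ha2 p (hA'p p hp) ((hdF p).mp (Nat.dvd_of_mem_primeFactors hp))
        have h5 : (p : ℝ) ≤ M := by exact_mod_cast h3.trans hmM
        linarith
      have h5 := hsmall m a y hm1 (le_trans (by exact_mod_cast hmM) hML) hmc
        (hQ1.trans (by exact_mod_cast hy1)) hy2
      rw [gg_hG hadm hm1]
      have h6 := cntW_ne (W := W) (y := y) (a := a) (m := m)
      have h7 := hWb a haN
      have h8 := abs_sub_le (cntW W' y a m) (cntW W y a m) (C * (1 / (rhoG G m : ℝ)) * y)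
      rw [hκ]
      linarith)
  have hG1 : 1 ≤ GG (hG G) M := one_le_GG h0 (by omega)
  -- the four small terms
  have hQt : 0 ≤ (Q : ℝ) / t := by positivity
  have e1 : 2 * κ * (M : ℝ) ≤ C * (Q / t) := by
    have g1 : κ * M ≤ κ * L ^ B := by
      apply mul_le_mul_of_nonneg_left hML
      rw [hκ]
      positivity
    have g2 : κ * L ^ B = C * ((N / L ^ B) * (1 / L ^ (2 : ℝ) + L ^ (2 * B) / (N : ℝ) ^ (3 / 4 : ℝ))) := by
      rw [hκ]
      have g3 : L ^ (2 * B + 2) = L ^ B * L ^ B * L ^ (2 : ℝ) := by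
        rw [show 2 * B + 2 = B + B + 2 by ring, Real.rpow_add hL0, Real.rpow_add hL0]
      have g4 : L ^ (2 * B) = L ^ B * L ^ B := by
        rw [show 2 * B = B + B by ring, Real.rpow_add hL0]
      have g5 : (N : ℝ) = (N : ℝ) ^ (1 / 4 : ℝ) * (N : ℝ) ^ (3 / 4 : ℝ) := by
        rw [← Real.rpow_add hN0]
        norm_num
      have hL2 : 0 < L ^ (2 : ℝ) := Real.rpow_pos_of_pos hL0 _
      have hN34 : 0 < (N : ℝ) ^ (3 / 4 : ℝ) := Real.rpow_pos_of_pos hN0 _
      have g6 : (N : ℝ) ^ (1 / 4 : ℝ) = N / (N : ℝ) ^ (3 / 4 : ℝ) := by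
        rw [eq_div_iff hN34.ne', ← g5]
      rw [g3, g4, g6]
      field_simp
    have g7 : 2 * (N / L ^ B * (1 / L ^ (2 : ℝ) + L ^ (2 * B) / (N : ℝ) ^ (3 / 4 : ℝ))) ≤ Q / t := by
      rw [le_div_iff₀ ht0]
      refine le_trans ?_ hQ1
      calc 2 * (N / L ^ B * (1 / L ^ (2 : ℝ) + L ^ (2 * B) / (N : ℝ) ^ (3 / 4 : ℝ))) * t =
          N / L ^ B * (2 * t * (1 / L ^ (2 : ℝ) + L ^ (2 * B) / (N : ℝ) ^ (3 / 4 : ℝ))) := by ring
        _ ≤ N / L ^ B * 1 := mul_le_mul_of_nonneg_left s4 (by positivity)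
        _ = _ := mul_one _
    calc 2 * κ * (M : ℝ) = 2 * (κ * M) := by ring
      _ ≤ 2 * (κ * L ^ B) := by linarith
      _ = C * (2 * (N / L ^ B * (1 / L ^ (2 : ℝ) + L ^ (2 * B) / (N : ℝ) ^ (3 / 4 : ℝ)))) := by
          rw [g2]
          ring
      _ ≤ C * (Q / t) := mul_le_mul_of_nonneg_left g7 hC.le
  have e2 : N * (CR Ch * √(6 / (Q : ℝ))) ≤ Q / t := by
    have g1 : √(6 / (Q : ℝ)) ≤ 3 / √Q := by
      rw [Real.sqrt_div (by norm_num)]
      apply div_le_div_of_nonneg_right _ (Real.sqrt_nonneg _)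
      rw [Real.sqrt_le_left (by norm_num)]
      norm_num
    have hsq0 : 0 < √(Q : ℝ) := Real.sqrt_pos.mpr hQ0
    have g2 : (N : ℝ) ^ (1 / 2 : ℝ) ≤ √Q * L ^ (B / 2) := by
      have g3 : √((N : ℝ) / L ^ B) ≤ √Q := Real.sqrt_le_sqrt hQ1
      rw [Real.sqrt_div hN0.le, div_le_iff₀ (Real.sqrt_pos.mpr hLB)] at g3
      rw [← Real.sqrt_eq_rpow]
      have g4 : √(L ^ B) = L ^ (B / 2) := by
        rw [Real.sqrt_eq_rpow, ← Real.rpow_mul hL0.le]
        congr 1
        ring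
      rwa [g4] at g3
    rw [le_div_iff₀ ht0]
    have g5 : (N : ℝ) * (3 * CR Ch) * t ≤ Q * √Q := by
      -- `N = (N / L^B) L^B ≤ Q L^B`
      have g6 : (N : ℝ) ≤ Q * L ^ B := by
        rwa [div_le_iff₀ hLB] at hQ1
      have g7 : L ^ (3 * B / 2) = L ^ B * L ^ (B / 2) := by
        rw [← Real.rpow_add hL0]
        congr 1
        ring
      have hLB2 : 0 < L ^ (B / 2) := Real.rpow_pos_of_pos hL0 _
      have g8 : 3 * CR Ch * L ^ B * t ≤ √Q := by
        have g9 : 3 * CR Ch * (L ^ B * L ^ (B / 2)) * t ≤ √Q * L ^ (B / 2) := by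
          rw [← g7]
          exact s5.trans g2
        have g10 : (3 * CR Ch * L ^ B * t) * L ^ (B / 2) ≤ √Q * L ^ (B / 2) := by linarith
        exact le_of_mul_le_mul_right g10 hLB2
      calc (N : ℝ) * (3 * CR Ch) * t ≤ (Q * L ^ B) * (3 * CR Ch) * t := by
            apply mul_le_mul_of_nonneg_right _ ht0.le
            exact mul_le_mul_of_nonneg_right g6 (by positivity)
        _ = Q * (3 * CR Ch * L ^ B * t) := by ring
        _ ≤ Q * √Q := mul_le_mul_of_nonneg_left g8 hQ0.le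
    calc (N : ℝ) * (CR Ch * √(6 / (Q : ℝ))) * t ≤ N * (CR Ch * (3 / √Q)) * t := by
          apply mul_le_mul_of_nonneg_right _ ht0.le
          apply mul_le_mul_of_nonneg_left _ hN0.le
          exact mul_le_mul_of_nonneg_left g1 hCR.le
      _ = (N * (3 * CR Ch) * t) / √Q := by
          field_simp
      _ ≤ (Q * √Q) / √Q := div_le_div_of_nonneg_right g5 hsq0.le
      _ = Q := by field_simp
  have e4 : N * ((1 + Ch) * CR Ch * (1 + Real.log ((2 * Q : ℕ) : ℝ)) * ((A'.card : ℝ) / S)) ≤ Q / t := by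
    have hS0 : (0 : ℝ) < S := by exact_mod_cast hS1
    have g1 : 1 + Real.log ((2 * Q : ℕ) : ℝ) ≤ 3 * L := by
      have g2 : Real.log ((2 * Q : ℕ) : ℝ) ≤ L := by
        apply Real.log_le_log
        · push_cast
          positivity
        · push_cast
          linarith
      linarith
    have g3 : (A'.card : ℝ) / S ≤ 2 * E * L / (L ^ B * L ^ 3 / 2) := by
      rw [hL3] at hSlow
      exact div_le_div₀ (by positivity) hcardA' (by positivity) hSlow
    have g4 : 0 ≤ 1 + Real.log ((2 * Q : ℕ) : ℝ) := by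
      have : 0 ≤ Real.log ((2 * Q : ℕ) : ℝ) := Real.log_natCast_nonneg _
      linarith
    rw [le_div_iff₀ ht0]
    refine le_trans ?_ hQ1
    calc N * ((1 + Ch) * CR Ch * (1 + Real.log ((2 * Q : ℕ) : ℝ)) * ((A'.card : ℝ) / S)) * t ≤
        N * ((1 + Ch) * CR Ch * (3 * L) * (2 * E * L / (L ^ B * L ^ 3 / 2))) * t := by
          apply mul_le_mul_of_nonneg_right _ ht0.le
          apply mul_le_mul_of_nonneg_left _ hN0.le
          apply mul_le_mul _ g3 (by positivity) (by positivity)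
          exact mul_le_mul_of_nonneg_left g1 (by positivity)
      _ = N / L ^ B * (((1 + Ch) * CR Ch * 3 * (2 * E) * 2) * t) / L := by
          field_simp
      _ ≤ N / L ^ B * L / L := by
          apply div_le_div_of_nonneg_right _ hL0.le
          exact mul_le_mul_of_nonneg_left s7 (by positivity)
      _ = N / L ^ B := by field_simp
  -- together
  have htM : (Q : ℝ) / t ≤ Q * GG (hG G) M / Real.log M := by
    calc (Q : ℝ) / t ≤ Q / Real.log M := div_le_div_of_nonneg_left hQ0.le hlM0 hlMt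
      _ = Q * 1 / Real.log M := by rw [mul_one]
      _ ≤ _ := by
          apply div_le_div_of_nonneg_right _ hlM0.le
          exact mul_le_mul_of_nonneg_left hG1 hQ0.le
  have hcore2 : |∑ q ∈ (Ioc Q (2 * Q)).filter (Fr A'), cntW W' N a q -
        ∑ q ∈ (Ioc Q (2 * Q)).filter (Fr A'), C * (gg (hG G) q / q) * N + C * (Q / 2 * GG (hG G) M)| ≤
      C * ((36 * c + 4) * (Q * GG (hG G) M / Real.log M)) := by
    refine hcore.trans ?_
    have g1 : C * (36 * (Ch * Real.log 4 + 1) * (Q * GG (hG G) M / Real.log (M : ℝ)) +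
        (N * (CR Ch * √(6 / (Q : ℝ))) + a * (3 * CR Ch) +
        N * ((1 + Ch) * CR Ch * (1 + Real.log ((2 * Q : ℕ) : ℝ)) * ((A'.card : ℝ) / S)))) ≤
        C * (36 * c * (Q * GG (hG G) M / Real.log (M : ℝ)) + 3 * (Q / t)) := by
      apply mul_le_mul_of_nonneg_left _ hC.le
      rw [← hc]
      linarith
    have g2 : C * (36 * c * (Q * GG (hG G) M / Real.log (M : ℝ)) + 3 * (Q / t)) + C * (Q / t) ≤
        C * ((36 * c + 4) * (Q * GG (hG G) M / Real.log M)) := by
      rw [← mul_add]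
      apply mul_le_mul_of_nonneg_left _ hC.le
      linarith
    linarith
  -- from `M` to `N / Q`
  have hMN1 : M ≤ N / Q := Nat.div_le_div_right (Nat.sub_le _ _)
  have hMN2 : N / Q ≤ M + 1 := by
    have : N / Q < M + 2 := (Nat.div_lt_iff_lt_mul hQn).mpr hM1
    omega
  obtain ⟨st0, st1⟩ := GG_step h0 h1 hCh0 hM2n hlogM hMN1 hMN2
  rw [← hc] at st1
  have hfil : (Ioc Q (2 * Q)).filter (fun q : ℕ => Int.gcd (G.eval (a : ℤ)) q = 1) =
      (Ioc Q (2 * Q)).filter (Fr A') := by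
    apply filter_congr
    intro q _
    exact hcop q
  rw [hfil]
  have hsum : ∑ q ∈ (Ioc Q (2 * Q)).filter (Fr A'), (cntW W' N a q - C * (1 / (rhoG G q : ℝ)) * N) =
      ∑ q ∈ (Ioc Q (2 * Q)).filter (Fr A'), cntW W' N a q -
        ∑ q ∈ (Ioc Q (2 * Q)).filter (Fr A'), C * (gg (hG G) q / q) * N := by
    rw [← sum_sub_distrib]
    refine sum_congr rfl fun q hq => ?_
    rw [mem_filter, mem_Ioc] at hq
    rw [gg_hG hadm (by omega)]
  rw [hsum]
  set D1 := ∑ q ∈ (Ioc Q (2 * Q)).filter (Fr A'), cntW W' N a q -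
        ∑ q ∈ (Ioc Q (2 * Q)).filter (Fr A'), C * (gg (hG G) q / q) * N with hD1
  have hstep : |C * (Q / 2 * GG (hG G) (N / Q)) - C * (Q / 2 * GG (hG G) M)| ≤
      C * (c * (Q * GG (hG G) M / Real.log M)) := by
    have g1 : C * (Q / 2 * GG (hG G) (N / Q)) - C * (Q / 2 * GG (hG G) M) =
        C * (Q / 2 * (GG (hG G) (N / Q) - GG (hG G) M)) := by ring
    rw [g1, abs_of_nonneg (by positivity)]
    apply mul_le_mul_of_nonneg_left _ hC.le
    calc (Q : ℝ) / 2 * (GG (hG G) (N / Q) - GG (hG G) M) ≤ Q / 2 * (2 * c * GG (hG G) M / Real.log M) :=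
          mul_le_mul_of_nonneg_left st1 (by positivity)
      _ = _ := by ring
  have htot : |D1 + C * (Q / 2 * GG (hG G) (N / Q))| ≤ C * ((37 * c + 4) * (Q * GG (hG G) M / Real.log M)) := by
    have g1 : D1 + C * (Q / 2 * GG (hG G) (N / Q)) = (D1 + C * (Q / 2 * GG (hG G) M)) +
        (C * (Q / 2 * GG (hG G) (N / Q)) - C * (Q / 2 * GG (hG G) M)) := by ring
    rw [g1]
    refine (abs_add_le _ _).trans ((add_le_add hcore2 hstep).trans (le_of_eq ?_))
    ring
  refine htot.trans ?_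
  have hNQ1 : 1 < (N : ℝ) / Q := by
    rw [lt_div_iff₀ hQ0]
    linarith
  have hlNQ : 0 < Real.log ((N : ℝ) / Q) := Real.log_pos hNQ1
  have hll : Real.log ((N : ℝ) / Q) ≤ 2 * Real.log M := by
    have g1 : (N : ℝ) / Q ≤ (M : ℝ) ^ 2 := by
      rw [div_le_iff₀ hQ0]
      have g2 : (M : ℝ) + 2 ≤ (M : ℝ) ^ 2 := by
        have : (2 : ℝ) ≤ M := by exact_mod_cast hM2n
        nlinarith
      exact hM1r.le.trans (mul_le_mul_of_nonneg_right g2 hQ0.le)
    have g3 := Real.log_le_log (by linarith) g1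
    rw [Real.log_pow] at g3
    push_cast at g3
    exact g3
  calc C * ((37 * c + 4) * (Q * GG (hG G) M / Real.log M)) ≤
      C * ((37 * c + 4) * (Q * GG (hG G) (N / Q) * 2 / Real.log ((N : ℝ) / Q))) := by
        apply mul_le_mul_of_nonneg_left _ hC.le
        apply mul_le_mul_of_nonneg_left _ (by positivity)
        rw [div_le_div_iff₀ hlM0 hlNQ]
        have g1 : GG (hG G) M ≤ GG (hG G) (N / Q) := by linarith
        have g2 : 0 ≤ Q * GG (hG G) (N / Q) := by
          have : 0 ≤ GG (hG G) (N / Q) := by linarith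
          positivity
        calc Q * GG (hG G) M * Real.log ((N : ℝ) / Q) ≤ Q * GG (hG G) (N / Q) * (2 * Real.log M) := by
              apply mul_le_mul _ hll hlNQ.le g2
              exact mul_le_mul_of_nonneg_left g1 hQ0.le
          _ = _ := by ring
    _ = 2 * (37 * c + 4) * (C * (Q * GG (hG G) (N / Q))) / Real.log ((N : ℝ) / Q) := by ring

end Pool.Agent.H537.BI
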