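import Pool.Agent.H537.GP.Size
import Pool.Agent.H537.GP.Almost
import Pool.Agent.H537.BI.Fin

/-! Almost all constant terms: the second order term. -/

set_option autoImplicit false
set_option maxHeartbeats 4000000

open Finset Polynomial Filter

namespace Pool.Agent.H537.BI

open Pool.Agent.H544.LD Pool.Agent.H537.FG Pool.Agent.H537.FT Pool.Agent.H537.GP
open Pool.Agent.H373R2.T7 (lamP lamP_nonneg)

open Classical in
/-- the weights are small -/
theorem weight_le {k : ℕ} (F : Fin k → ℤ[X]) (c : Fin k → ℕ) {n : ℕ} {T : ℝ} (hT : 0 ≤ T)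
    (hsz : ∀ m : ℕ, (0 < m) → (m : ℝ) ≤ ((Hp F c).eval (n : ℤ)).natAbs → Real.log m ≤ T) :
    |∏ i, lamP (va F c i n)| ≤ T ^ k := by
  have h0 : ∀ i : Fin k, 0 ≤ lamP (va F c i n) := fun i => lamP_nonneg _
  rw [abs_of_nonneg (prod_nonneg fun i _ => h0 i)]
  by_cases h : ∏ i, lamP (va F c i n) = 0
  · rw [h]
    positivity
  · have hne : ∀ i : Fin k, lamP (va F c i n) ≠ 0 := fun i h0 => h (prod_eq_zero (mem_univ i) h0)
    have hpr : ∀ i : Fin k, (va F c i n).toNat.Prime := by
      intro i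
      by_contra hcon
      apply hne i
      unfold lamP
      rw [if_neg hcon]
    have hprod : ((Hp F c).eval (n : ℤ)).natAbs = ∏ i, (va F c i n).toNat := by
      rw [Hp_va]
      have h1 : (∏ i, va F c i n).natAbs = ∏ i, (va F c i n).natAbs := map_prod Int.natAbsHom _ _
      rw [h1]
      refine prod_congr rfl fun i _ => ?_
      have := (hpr i).pos
      omega
    have h1 : ∀ i ∈ (univ : Finset (Fin k)), lamP (va F c i n) ≤ T := by
      intro i _
      unfold lamP
      rw [if_pos (hpr i)]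
      apply hsz _ (hpr i).pos
      rw [hprod]
      have h2 : (va F c i n).toNat ∣ ∏ i, (va F c i n).toNat := dvd_prod_of_mem _ (mem_univ i)
      have h3 := Nat.le_of_dvd (prod_pos fun i _ => (hpr i).pos) h2
      exact_mod_cast h3
    calc ∏ i, lamP (va F c i n) ≤ ∏ _i : Fin k, T := prod_le_prod (fun i _ => h0 i) h1
      _ = T ^ k := by rw [prod_const, card_univ, Fintype.card_fin]

open Classical in
theorem almost_bias {k : ℕ} (hk : 1 ≤ k) (F : Fin k → ℤ[X]) (hd : ∀ i, 1 ≤ (F i).natDegree)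
    (hl : ∀ i, 0 < (F i).leadingCoeff) :
    ∃ C₀ : ℝ, 0 < C₀ ∧ ∃ M₀ : ℝ, 1 ≤ M₀ ∧ ∀ B : ℝ, 0 < B → ∀ B₁ U : ℕ, 1 ≤ B₁ →
      ∃ E₀ : ℕ, ∀ E : ℕ, ∀ᶠ x : ℕ in atTop,
      ∀ A : Fin k → ℕ, (∀ i, A i ≤ B₁ * x ^ (F i).natDegree ∧ x ^ (F i).natDegree ≤ B₁ * A i) →
      ∀ z : ℕ, Real.log x ^ E₀ ≤ z → (z : ℝ) ≤ Real.log x ^ E →
      (((Bx A).filter (fun c => (∀ p : ℕ, p.Prime → om (Hp F c) p < p) ∧
        ¬ ∀ Q a : ℕ, (x : ℝ) / Real.log x ^ B ≤ Q → (Q : ℝ) ≤ x / M₀ → 1 ≤ a → (a : ℝ) ≤ (x : ℝ) ^ (1 / 2 : ℝ) →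
        (∀ p : ℕ, p.Prime → (p : ℤ) ∣ (Hp F c).eval (a : ℤ) → Real.log x ^ (B + 3) < p) →
        |∑ q ∈ (Ioc Q (2 * Q)).filter (fun q : ℕ => Int.gcd ((Hp F c).eval (a : ℤ)) q = 1),
            (cntW (fun n => if n = a then 0 else ∏ i, lamP (va F c i n)) x a q -
              Cz F c z * (1 / (rho (Hp F c) q : ℝ)) * x) +
            Cz F c z * (Q / 2 * GG (hG (Hp F c)) (x / Q))| ≤
          C₀ * (Cz F c z * (Q * GG (hG (Hp F c)) (x / Q))) / Real.log ((x : ℝ) / Q))).card : ℝ) ≤
        (∏ i, (A i : ℝ)) / Real.log x ^ U := by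
  set D : ℕ := ∑ i, (F i).natDegree with hD
  obtain ⟨Es, hEs, hsize'⟩ := Hp_size F
  choose n₁ C₁ hval using fun i => value_ge (F i) (hd i) (hl i)
  obtain ⟨c₂, hc₂, hCz⟩ := Cz_ge k D
  obtain ⟨C₀, hC₀, M₀, hM₀, hbias⟩ := biasG D
  refine ⟨C₀, hC₀, M₀, hM₀, fun B hB B₁ U hB₁ => ?_⟩
  have hsize := hsize' B₁
  obtain ⟨m, hm⟩ := exists_nat_gt (3 * B + 3)
  set U' : ℕ := max m (U + 2) with hU'
  obtain ⟨E₀, hE₀⟩ := fin_all F hd hl B₁ hB₁ U'
  refine ⟨E₀, fun E => ?_⟩
  obtain ⟨Dx, N₀, hfin⟩ := hE₀ E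
  have hlogX : Tendsto (fun X : ℕ => Real.log (X : ℝ)) atTop atTop :=
    Real.tendsto_log_atTop.comp tendsto_natCast_atTop_atTop
  -- `L ^ B ≤ x exp (- D (log L) ^ 2)`
  have t1 : ∀ᶠ L : ℝ in atTop, (B + 1) * Real.log L + Dx * Real.log L ^ 2 ≤ L := by
    have h1 := Real.isLittleO_log_id_atTop.bound (c := 1 / (2 * (B + 1))) (by positivity)
    have h2 := (Real.isLittleO_pow_log_id_atTop (n := 2)).bound (c := 1 / (2 * ((Dx : ℝ) + 1))) (by positivity)
    filter_upwards [h1, h2, eventually_ge_atTop (1 : ℝ)] with L h3 h4 h5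
    have hl0 := Real.log_nonneg h5
    rw [id, Real.norm_of_nonneg hl0, Real.norm_of_nonneg (by linarith)] at h3
    rw [id, Real.norm_of_nonneg (by positivity), Real.norm_of_nonneg (by linarith)] at h4
    have e1 : (B + 1) * Real.log L ≤ (B + 1) * (1 / (2 * (B + 1)) * L) :=
      mul_le_mul_of_nonneg_left h3 (by linarith)
    have e2 : (Dx : ℝ) * Real.log L ^ 2 ≤ ((Dx : ℝ) + 1) * (1 / (2 * ((Dx : ℝ) + 1)) * L) := by
      apply mul_le_mul (by linarith) h4 (by positivity) (by positivity)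
    have e3 : (B + 1) * (1 / (2 * (B + 1)) * L) = L / 2 := by field_simp
    have e4 : ((Dx : ℝ) + 1) * (1 / (2 * ((Dx : ℝ) + 1)) * L) = L / 2 := by field_simp
    linarith
  have t2 := ev_log_pow (2 * D) E c₂ (Nat.cast_nonneg _) (by positivity)
  -- the small constant terms
  have t3 : ∀ᶠ x : ℕ in atTop, ((∑ i, C₁ i : ℕ) : ℝ) * B₁ * (k * Real.log x ^ (U + 2)) ≤ x := by
    have h1 := ((Real.isLittleO_pow_log_id_atTop (n := U + 2)).comp_tendsto
      tendsto_natCast_atTop_atTop).bound (c := 1 / (((∑ i, C₁ i : ℕ) : ℝ) * B₁ * k + 1)) (by positivity)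
    filter_upwards [h1, hlogX.eventually_ge_atTop 0] with x h2 h3
    simp only [Function.comp_apply, id] at h2
    rw [Real.norm_of_nonneg (by positivity), Real.norm_of_nonneg (Nat.cast_nonneg _)] at h2
    set Cc : ℝ := ((∑ i, C₁ i : ℕ) : ℝ) * B₁ * k with hCc
    have hCc0 : 0 ≤ Cc := by positivity
    calc ((∑ i, C₁ i : ℕ) : ℝ) * B₁ * (k * Real.log x ^ (U + 2)) = Cc * Real.log x ^ (U + 2) := by
          rw [hCc]
          ring
      _ ≤ (Cc + 1) * (1 / (Cc + 1) * x) := by
          apply mul_le_mul (by linarith) h2 (by positivity) (by positivity)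
      _ = x := by field_simp
  -- the weights
  have t4 : ∀ᶠ L : ℝ in atTop, L * (Es * L) ^ k ≤ Real.exp L ^ (1 / 4 : ℝ) := by
    have h1 := (isLittleO_rpow_exp_pos_mul_atTop ((k : ℝ) + 1) (show (0 : ℝ) < 1 / 4 by norm_num)).bound
      (c := 1 / Es ^ k) (by positivity)
    filter_upwards [h1, eventually_ge_atTop (1 : ℝ)] with L h2 h4
    have hL0 : 0 < L := by linarith
    rw [Real.norm_of_nonneg (Real.rpow_nonneg (by linarith) _), Real.norm_of_nonneg (Real.exp_pos _).le,
      Real.rpow_add_one hL0.ne', Real.rpow_natCast] at h2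
    rw [← Real.exp_mul, mul_comm L (1 / 4 : ℝ), mul_pow]
    calc L * (Es ^ k * L ^ k) = Es ^ k * (L ^ k * L) := by ring
      _ ≤ Es ^ k * (1 / Es ^ k * Real.exp (1 / 4 * L)) := mul_le_mul_of_nonneg_left h2 (by positivity)
      _ = Real.exp (1 / 4 * L) := by field_simp
  filter_upwards [hsize, hbias Es hEs (∑ i, n₁ i) B hB, hlogX.eventually t1, hlogX.eventually t2, t3,
    hlogX.eventually t4, hlogX.eventually_ge_atTop 3, eventually_ge_atTop N₀, eventually_ge_atTop 3]
    with x r2 r3 r4 r5 r6 r10 r7 r8 r9 A hA z hz1 hz2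
  set L := Real.log (x : ℝ) with hL
  have hL0 : 0 < L := by linarith
  have hL1 : 1 ≤ L := by linarith
  have hx0 : (0 : ℝ) < x := by
    have : 0 < x := by omega
    exact_mod_cast this
  have hxexp : (x : ℝ) = Real.exp L := by rw [hL, Real.exp_log hx0]
  -- the bad sets
  set Bad1 := (Bx A).filter (fun a => ¬ ∀ Q : ℕ, (Q : ℝ) ≤ x * Real.exp (-(Dx * Real.log (Real.log x) ^ 2)) →
          ∀ y : ℕ → ℕ → ℕ, (∀ q r, y q r ≤ x) →
          ∑ q ∈ Icc 1 Q, (∑ r ∈ range q, |th F a (y q r) q r - mu F a z q r * y q r|) / (range q).card ≤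
            x / Real.log x ^ U') with hBad1
  have hb1 : (Bad1.card : ℝ) ≤ (∏ i, (A i : ℝ)) / L ^ U' :=
    hfin x r8 A hA z hz1 hz2 (fun q => range q) (fun q => Subset.refl _)
  have hprodA : 0 ≤ ∏ i, (A i : ℝ) := prod_nonneg fun _ _ => Nat.cast_nonneg _
  set Bad3 := univ.biUnion (fun i => (Bx A).filter (fun c => c i < C₁ i)) with hBad3
  have hb3 : (Bad3.card : ℝ) ≤ (∏ i, (A i : ℝ)) * (1 / L ^ (U + 2)) := by
    have h1 : ∀ i : Fin k, (((Bx A).filter (fun c => c i < C₁ i)).card : ℝ) ≤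
        (∏ j, (A j : ℝ)) * (1 / (k * L ^ (U + 2))) := by
      intro i
      apply box_coord A i (fun t => t < C₁ i)
      have h2 : ((Icc 1 (A i)).filter (fun t => t < C₁ i)).card ≤ C₁ i := by
        calc ((Icc 1 (A i)).filter (fun t => t < C₁ i)).card ≤ (range (C₁ i)).card := by
              apply card_le_card
              intro t ht
              rw [mem_filter] at ht
              exact mem_range.mpr ht.2
          _ = C₁ i := card_range _
      have h3 : (C₁ i : ℝ) ≤ ((∑ i, C₁ i : ℕ) : ℝ) := by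
        exact_mod_cast single_le_sum (f := C₁) (fun i _ => Nat.zero_le _) (mem_univ i)
      have hB0 : (0 : ℝ) < B₁ := by exact_mod_cast hB₁
      have hk0 : (0 : ℝ) < k := by exact_mod_cast hk
      have h4 : (x : ℝ) ≤ B₁ * A i := by
        have h5 : ((x ^ (F i).natDegree : ℕ) : ℝ) ≤ ((B₁ * A i : ℕ) : ℝ) := by exact_mod_cast (hA i).2
        push_cast at h5
        have hx1 : (1 : ℝ) ≤ x := by
          have : 1 ≤ x := by omega
          exact_mod_cast this
        calc (x : ℝ) = (x : ℝ) ^ 1 := (pow_one _).symm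
          _ ≤ (x : ℝ) ^ (F i).natDegree := pow_le_pow_right₀ hx1 (hd i)
          _ ≤ _ := h5
      calc (((Icc 1 (A i)).filter (fun t => t < C₁ i)).card : ℝ) ≤ C₁ i := by exact_mod_cast h2
        _ ≤ A i * (1 / (k * L ^ (U + 2))) := by
            rw [mul_one_div, le_div_iff₀ (by positivity)]
            have h6 : (C₁ i : ℝ) * B₁ * (k * L ^ (U + 2)) ≤ B₁ * A i := by
              refine le_trans ?_ (r6.trans h4)
              apply mul_le_mul_of_nonneg_right _ (by positivity)
              exact mul_le_mul_of_nonneg_right h3 hB0.le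
            have h7 : (B₁ : ℝ) * ((C₁ i : ℝ) * (k * L ^ (U + 2))) ≤ B₁ * A i := by linarith
            exact le_of_mul_le_mul_left h7 hB0
    have hk0 : (0 : ℝ) < k := by exact_mod_cast hk
    calc (Bad3.card : ℝ) ≤ ∑ i : Fin k, (((Bx A).filter (fun c => c i < C₁ i)).card : ℝ) := by
          exact_mod_cast card_biUnion_le
      _ ≤ ∑ _i : Fin k, (∏ j, (A j : ℝ)) * (1 / (k * L ^ (U + 2))) := sum_le_sum fun i _ => h1 i
      _ = _ := by
          rw [sum_const, card_univ, Fintype.card_fin, nsmul_eq_mul]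
          field_simp
  -- the good constant terms
  have hsub : (Bx A).filter (fun c => (∀ p : ℕ, p.Prime → om (Hp F c) p < p) ∧
        ¬ ∀ Q a : ℕ, (x : ℝ) / L ^ B ≤ Q → (Q : ℝ) ≤ x / M₀ → 1 ≤ a → (a : ℝ) ≤ (x : ℝ) ^ (1 / 2 : ℝ) →
        (∀ p : ℕ, p.Prime → (p : ℤ) ∣ (Hp F c).eval (a : ℤ) → L ^ (B + 3) < p) →
        |∑ q ∈ (Ioc Q (2 * Q)).filter (fun q : ℕ => Int.gcd ((Hp F c).eval (a : ℤ)) q = 1),
            (cntW (fun n => if n = a then 0 else ∏ i, lamP (va F c i n)) x a q -
              Cz F c z * (1 / (rho (Hp F c) q : ℝ)) * x) +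
            Cz F c z * (Q / 2 * GG (hG (Hp F c)) (x / Q))| ≤
          C₀ * (Cz F c z * (Q * GG (hG (Hp F c)) (x / Q))) / Real.log ((x : ℝ) / Q)) ⊆ Bad1 ∪ Bad3 := by
    intro c hc
    rw [mem_filter] at hc
    obtain ⟨hcB, hadm, hno⟩ := hc
    by_contra hbad
    rw [mem_union, not_or] at hbad
    obtain ⟨hnb1, hnb3⟩ := hbad
    apply hno
    have hcA : ∀ i, 1 ≤ c i ∧ c i ≤ A i := by
      intro i
      unfold Bx at hcB
      exact mem_Icc.mp (Fintype.mem_piFinset.mp hcB i)
    have hcB1 : ∀ i, c i ≤ B₁ * x ^ (F i).natDegree := fun i => (hcA i).2.trans (hA i).1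
    have hgood : ∀ Q : ℕ, (Q : ℝ) ≤ x * Real.exp (-(Dx * Real.log (Real.log x) ^ 2)) →
          ∀ y : ℕ → ℕ → ℕ, (∀ q r, y q r ≤ x) →
          ∑ q ∈ Icc 1 Q, (∑ r ∈ range q, |th F c (y q r) q r - mu F c z q r * y q r|) / (range q).card ≤
            x / Real.log x ^ U' := by
      by_contra hcon
      exact hnb1 (mem_filter.mpr ⟨hcB, hcon⟩)
    have hcC : ∀ i, C₁ i ≤ c i := by
      intro i
      by_contra hcon
      push Not at hcon
      exact hnb3 (mem_biUnion.mpr ⟨i, mem_univ _, mem_filter.mpr ⟨hcB, hcon⟩⟩)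
    have hCzc := hCz F c le_rfl hadm z
    have hlz : 0 ≤ Real.log (z : ℝ) := Real.log_natCast_nonneg z
    have hCz0 : 0 < Cz F c z := lt_of_lt_of_le (by positivity) hCzc
    have hzL : 1 + Real.log z ≤ 1 + E * Real.log L := by
      rcases Nat.eq_zero_or_pos z with h0 | h0
      · have hLl : 0 ≤ Real.log L := Real.log_nonneg hL1
        rw [h0]
        simp only [Nat.cast_zero, Real.log_zero]
        have : 0 ≤ (E : ℝ) * Real.log L := by positivity
        linarith
      · have h5 := Real.log_le_log (by exact_mod_cast h0) hz2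
        rw [Real.log_pow] at h5
        linarith
    have e1 : c₂ / (c₂ * L) ≤ Cz F c z := by
      refine le_trans ?_ hCzc
      apply div_le_div_of_nonneg_left hc₂.le (by positivity)
      exact (pow_le_pow_left₀ (by linarith) hzL _).trans r5
    have hCzL : 1 / L ≤ Cz F c z := by
      refine le_trans (le_of_eq ?_) e1
      field_simp
    have hsz := r2 c hcB1
    have key := r3 (Hp F c) (fun n => ∏ i, lamP (va F c i n)) (Cz F c z)
      (Hp_deg F c) hsz hadm hCz0
      (by
        intro n hn hW p hp hpn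
        rw [Hp_va] at hpn
        obtain ⟨i, _, hi⟩ := ((Nat.prime_iff_prime_int.mp hp).dvd_finsetProd_iff _).mp hpn
        have h1 : lamP (va F c i n) ≠ 0 := fun h0 => hW (prod_eq_zero (mem_univ i) h0)
        have h2 : (va F c i n).toNat.Prime := by
          by_contra hcon
          apply h1
          unfold lamP
          rw [if_neg hcon]
        have h3 : 0 < va F c i n := by
          have := h2.pos
          omega
        have h4 : p ∣ (va F c i n).toNat := by
          have : (p : ℤ) ∣ ((va F c i n).toNat : ℤ) := by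
            rw [Int.toNat_of_nonneg h3.le]
            exact hi
          exact_mod_cast this
        have h5 := (Nat.prime_dvd_prime_iff_eq hp h2).mp h4
        have h6 := hval i n (le_trans (single_le_sum (f := n₁) (fun i _ => Nat.zero_le _) (mem_univ i)) hn)
        have h7 := hcC i
        have h8 : (n : ℤ) ≤ va F c i n := by
          unfold va
          have : (C₁ i : ℤ) ≤ c i := by exact_mod_cast h7
          linarith
        omega)
      (by
        intro n hn
        have h1 := weight_le F c (n := n) (T := Es * L) (by positivity) (by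
          intro m hm hmn
          have h2 := Real.log_le_log (by exact_mod_cast hm) (hmn.trans (hsz n hn))
          rwa [Real.log_rpow hx0, ← hL] at h2)
        refine h1.trans ?_
        rw [← hxexp] at r10
        have h3 : (Es * L) ^ k ≤ 1 / L * (x : ℝ) ^ (1 / 4 : ℝ) := by
          rw [one_div_mul_eq_div, le_div_iff₀ hL0]
          linarith
        exact h3.trans (mul_le_mul_of_nonneg_right hCzL (Real.rpow_nonneg hx0.le _)))
      (by
        intro q a y hq hqL hg hy1 hy2
        have hq0 : (0 : ℝ) < q := by exact_mod_cast hq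
        have hQle : (q : ℝ) ≤ x * Real.exp (-(Dx * Real.log (Real.log x) ^ 2)) := by
          refine hqL.trans ?_
          have e1 : L ^ B = Real.exp (B * Real.log L) := by
            rw [Real.rpow_def_of_pos hL0]
            congr 1
            ring
          rw [e1, hxexp, ← Real.exp_add]
          apply Real.exp_le_exp.mpr
          rw [Real.log_exp]
          have := Real.log_nonneg hL1
          linarith
        have h1 := hgood q hQle (fun _ _ => y) (fun _ _ => hy2)
        have h2 : (∑ r ∈ range q, |th F c y q r - mu F c z q r * y|) / (range q).card ≤ x / L ^ U' := by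
          refine le_trans ?_ h1
          exact single_le_sum (f := fun q : ℕ => (∑ r ∈ range q, |th F c y q r - mu F c z q r * y|) /
            ((range q).card : ℝ)) (fun i _ => div_nonneg (sum_nonneg fun _ _ => abs_nonneg _)
              (Nat.cast_nonneg _)) (mem_Icc.mpr ⟨hq, le_rfl⟩)
        rw [card_range, div_le_iff₀ hq0] at h2
        have h3 : |th F c y q (a % q) - mu F c z q (a % q) * y| ≤ x / L ^ U' * q := by
          refine le_trans ?_ h2
          exact single_le_sum (f := fun r : ℕ => |th F c y q r - mu F c z q r * y|)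
            (fun _ _ => abs_nonneg _) (mem_range.mpr (Nat.mod_lt _ hq))
        have hmu : mu F c z q (a % q) = Cz F c z / rho (Hp F c) q := by
          unfold mu
          rw [if_pos]
          rw [gcd_mod]
          exact hg
        have hth : th F c y q (a % q) = cntW (fun n => ∏ i, lamP (va F c i n)) y a q := rfl
        rw [hmu, hth] at h3
        have hrho : (rho (Hp F c) q : ℝ) = rhoG (Hp F c) q := rfl
        rw [hrho] at h3
        have hLB : 0 < L ^ B := Real.rpow_pos_of_pos hL0 _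
        have e0 : Cz F c z * (1 / (rhoG (Hp F c) q : ℝ)) * y = Cz F c z / rhoG (Hp F c) q * y := by ring
        rw [e0]
        refine h3.trans ?_
        have e4 : L ^ (3 * B + 3) ≤ L ^ U' := by
          rw [← Real.rpow_natCast L U']
          apply Real.rpow_le_rpow_of_exponent_le hL1
          have : (m : ℝ) ≤ U' := by
            rw [hU']
            exact_mod_cast le_max_left _ _
          linarith
        have e5 : L ^ (3 * B + 3) = L ^ (2 * B + 2) * L ^ B * L := by
          rw [show 3 * B + 3 = (2 * B + 2) + B + 1 by ring, Real.rpow_add_one hL0.ne',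
            Real.rpow_add hL0]
        have hL22 : 0 < L ^ (2 * B + 2) := Real.rpow_pos_of_pos hL0 _
        calc (x : ℝ) / L ^ U' * q ≤ x / L ^ (3 * B + 3) * L ^ B := by
              apply mul_le_mul _ hqL hq0.le (by positivity)
              exact div_le_div_of_nonneg_left hx0.le (by positivity) e4
          _ = 1 / L * (x / L ^ (2 * B + 2)) := by
              rw [e5]
              field_simp
          _ ≤ _ := mul_le_mul_of_nonneg_right hCzL (by positivity))
    intro Q a hQ1 hQ2 ha0 ha1 ha2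
    exact key Q a hQ1 hQ2 ha0 ha1 ha2
  have hfin2 := card_le_card hsub
  have hfin3 : ((Bad1 ∪ Bad3).card : ℝ) ≤ Bad1.card + Bad3.card := by
    exact_mod_cast card_union_le Bad1 Bad3
  refine le_trans (by exact_mod_cast hfin2) (hfin3.trans ?_)
  have hU2 : L ^ (U + 2) ≤ L ^ U' := pow_le_pow_right₀ hL1 (le_max_right _ _)
  have hb1' : (Bad1.card : ℝ) ≤ (∏ i, (A i : ℝ)) * (1 / L ^ (U + 2)) := by
    refine hb1.trans ?_
    rw [mul_one_div]
    exact div_le_div_of_nonneg_left hprodA (by positivity) hU2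
  have hLL : 2 * (1 / L ^ (U + 2)) ≤ 1 / L ^ U := by
    rw [mul_one_div, div_le_div_iff₀ (by positivity) (by positivity), pow_add]
    have : 2 ≤ L ^ 2 := by nlinarith
    have h0 : 0 < L ^ U := by positivity
    nlinarith
  calc (Bad1.card : ℝ) + Bad3.card ≤ (∏ i, (A i : ℝ)) * (2 * (1 / L ^ (U + 2))) := by linarith
    _ ≤ (∏ i, (A i : ℝ)) * (1 / L ^ U) := mul_le_mul_of_nonneg_left hLL hprodA
    _ = _ := by rw [mul_one_div]

end Pool.Agent.H537.BI
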