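import Mathlib

/-! The sum `∑_{j ≤ Y} min(1, Y/j - 1) = Y log 2 - 1/2 + O(1/Y)`. -/

set_option autoImplicit false
set_option maxHeartbeats 1000000

open Finset

namespace Pool.Agent.H537.BI

theorem one_step {j : ℕ} (hj : 1 ≤ j) :
    0 ≤ Real.log ((2 * j + 1 : ℝ) / (2 * j - 1)) - 1 / j ∧
      Real.log ((2 * j + 1 : ℝ) / (2 * j - 1)) - 1 / j ≤ 1 / (9 * (j : ℝ) ^ 3) := by
  have hj1 : (1 : ℝ) ≤ j := by exact_mod_cast hj
  have hj0 : (0 : ℝ) < j := by linarith
  set x : ℝ := 1 / (2 * j) with hx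
  have hx0 : 0 < x := by positivity
  have hx2 : x ≤ 1 / 2 := by
    rw [hx]
    apply one_div_le_one_div_of_le (by norm_num)
    linarith
  have h1 := Real.hasSum_log_sub_log_of_abs_lt_one (x := x) (by rw [abs_of_pos hx0]; linarith)
  have e1 : Real.log (1 + x) - Real.log (1 - x) = Real.log ((2 * j + 1 : ℝ) / (2 * j - 1)) := by
    rw [← Real.log_div (by linarith) (by linarith)]
    congr 1
    rw [hx]
    have : (2 * j : ℝ) - 1 ≠ 0 := by linarith
    field_simp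
  have e2 : 2 * x = 1 / j := by
    rw [hx]
    field_simp
  rw [e1] at h1
  constructor
  · have h2 := sum_le_hasSum {0} (fun k _ => by positivity) h1
    simp only [sum_singleton, Nat.cast_zero, mul_zero, zero_add, pow_one, div_one, mul_one] at h2
    linarith
  · have hg : HasSum (fun k : ℕ => 2 * x * (if k = 0 then 1 else 0) + 2 / 3 * x ^ 3 * (x ^ 2) ^ k)
        (2 * x * 1 + 2 / 3 * x ^ 3 * (1 - x ^ 2)⁻¹) := by
      apply HasSum.add
      · apply HasSum.mul_left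
        exact hasSum_ite_eq 0 (1 : ℝ)
      · apply HasSum.mul_left
        apply hasSum_geometric_of_lt_one (by positivity)
        nlinarith
    have hg2 : HasSum (fun k : ℕ => 2 * x * (if k = 0 then 1 else 0) +
        (if k = 0 then 0 else 2 / 3 * x ^ 3 * (x ^ 2) ^ (k - 1)))
        (2 * x * 1 + 2 / 3 * x ^ 3 * (1 - x ^ 2)⁻¹) := by
      apply HasSum.add
      · apply HasSum.mul_left
        exact hasSum_ite_eq 0 (1 : ℝ)
      · have h3 : HasSum (fun k : ℕ => 2 / 3 * x ^ 3 * (x ^ 2) ^ k) (2 / 3 * x ^ 3 * (1 - x ^ 2)⁻¹) := by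
          apply HasSum.mul_left
          apply hasSum_geometric_of_lt_one (by positivity)
          nlinarith
        have h4 := (hasSum_nat_add_iff (f := fun k : ℕ => if k = 0 then (0 : ℝ) else
          2 / 3 * x ^ 3 * (x ^ 2) ^ (k - 1)) 1 (g := 2 / 3 * x ^ 3 * (1 - x ^ 2)⁻¹)).mp (by simpa using h3)
        simpa using h4
    have h5 := hasSum_le (fun k => ?_) h1 hg2
    · have e3 : (1 - x ^ 2)⁻¹ ≤ 4 / 3 := by
        rw [inv_le_comm₀ (by nlinarith) (by norm_num)]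
        nlinarith
      have e4 : 2 / 3 * x ^ 3 * (1 - x ^ 2)⁻¹ ≤ 2 / 3 * x ^ 3 * (4 / 3) :=
        mul_le_mul_of_nonneg_left e3 (by positivity)
      have e5 : 2 / 3 * x ^ 3 * (4 / 3) = 1 / (9 * (j : ℝ) ^ 3) := by
        rw [hx]
        field_simp
        norm_num
      linarith
    · rcases Nat.eq_zero_or_pos k with h0 | h0
      · subst h0
        simp
      · rw [if_neg (by omega), if_neg (by omega), mul_zero, zero_add]
        have h6 : x ^ (2 * k + 1) = x ^ 3 * (x ^ 2) ^ (k - 1) := by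
          obtain ⟨i, rfl⟩ : ∃ i, k = i + 1 := ⟨k - 1, by omega⟩
          rw [Nat.add_sub_cancel, ← pow_mul, ← pow_add]
          congr 1
          omega
        have h7 : (2 : ℝ) * (1 / (2 * k + 1)) ≤ 2 / 3 := by
          have hk : (1 : ℝ) ≤ k := by exact_mod_cast h0
          rw [mul_one_div, div_le_div_iff₀ (by linarith) (by norm_num)]
          linarith
        rw [h6, mul_assoc (2 / 3 : ℝ)]
        exact mul_le_mul_of_nonneg_right h7 (by positivity)

theorem harm_mid {u v : ℕ} (huv : u ≤ v) :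
    |∑ j ∈ Ioc u v, (1 : ℝ) / j - Real.log ((2 * v + 1 : ℝ) / (2 * u + 1))| ≤
      ((v : ℝ) - u) * (1 / (9 * ((u : ℝ) + 1) ^ 3)) := by
  induction v, huv using Nat.le_induction with
  | base =>
    have : (2 * u + 1 : ℝ) ≠ 0 := by positivity
    simp [div_self this]
  | succ v huv ih =>
    rw [sum_Ioc_succ_top huv]
    have h1 := one_step (j := v + 1) (by omega)
    have e1 : Real.log ((2 * ((v + 1 : ℕ) : ℝ) + 1) / (2 * u + 1)) =
        Real.log ((2 * v + 1 : ℝ) / (2 * u + 1)) +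
          Real.log ((2 * ((v + 1 : ℕ) : ℝ) + 1) / (2 * ((v + 1 : ℕ) : ℝ) - 1)) := by
      push_cast
      rw [← Real.log_mul (by positivity) (by
        have : (0 : ℝ) < 2 * (v + 1) + 1 := by positivity
        have h2 : (0 : ℝ) < 2 * (v + 1) - 1 := by
          have : (0 : ℝ) ≤ v := Nat.cast_nonneg _
          linarith
        positivity)]
      congr 1
      have h2 : (2 * ((v : ℝ) + 1) - 1) = 2 * v + 1 := by ring
      rw [h2]
      field_simp
    rw [e1]
    have h3 : 1 / (9 * (((v + 1 : ℕ) : ℝ)) ^ 3) ≤ 1 / (9 * ((u : ℝ) + 1) ^ 3) := by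
      apply one_div_le_one_div_of_le (by positivity)
      have : (u : ℝ) + 1 ≤ ((v + 1 : ℕ) : ℝ) := by
        push_cast
        have : (u : ℝ) ≤ v := by exact_mod_cast huv
        linarith
      gcongr
    rw [abs_le] at ih ⊢
    have e2 : (((v + 1 : ℕ) : ℝ) - u) * (1 / (9 * ((u : ℝ) + 1) ^ 3)) =
        ((v : ℝ) - u) * (1 / (9 * ((u : ℝ) + 1) ^ 3)) + 1 / (9 * ((u : ℝ) + 1) ^ 3) := by
      push_cast
      ring
    rw [e2]
    have h0 : 0 ≤ 1 / (9 * ((u : ℝ) + 1) ^ 3) := by positivity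
    constructor <;> linarith [ih.1, ih.2, h1.1, h1.2]

theorem log_one_add {t : ℝ} (ht : |t| ≤ 1 / 2) : |Real.log (1 + t) - t| ≤ 2 * t ^ 2 := by
  have h1 := (abs_le.mp ht).1
  have h2 := (abs_le.mp ht).2
  have h3 : 0 < 1 + t := by linarith
  have h4 := Real.log_le_sub_one_of_pos h3
  have h5 := Real.one_sub_inv_le_log_of_pos h3
  rw [abs_le]
  constructor
  · have h6 : t - t ^ 2 * 2 ≤ 1 - (1 + t)⁻¹ := by
      have : 1 - (1 + t)⁻¹ = t / (1 + t) := by field_simp; ring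
      rw [this, le_div_iff₀ h3]
      nlinarith [sq_nonneg t]
    linarith
  · nlinarith [sq_nonneg t]

/-- the sum `∑_{j ≤ Y} min(1, Y/j - 1)` -/
noncomputable def VS (Y : ℝ) : ℝ := ∑ j ∈ Ioc 0 ⌊Y⌋₊, min 1 (Y / j - 1)

theorem VS_eq {Y : ℝ} (hY : 0 ≤ Y) : VS Y = Y * ∑ j ∈ Ioc ⌊Y / 2⌋₊ ⌊Y⌋₊, (1 : ℝ) / j - ⌊Y⌋₊ + 2 * ⌊Y / 2⌋₊ := by
  have hle : ⌊Y / 2⌋₊ ≤ ⌊Y⌋₊ := Nat.floor_le_floor (by linarith)
  have h0 : Ioc 0 ⌊Y⌋₊ = Ioc 0 ⌊Y / 2⌋₊ ∪ Ioc ⌊Y / 2⌋₊ ⌊Y⌋₊ := (Ioc_union_Ioc_eq_Ioc (Nat.zero_le _) hle).symm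
  have hdis : Disjoint (Ioc 0 ⌊Y / 2⌋₊) (Ioc ⌊Y / 2⌋₊ ⌊Y⌋₊) := by
    rw [disjoint_left]
    intro j h1 h2
    rw [mem_Ioc] at h1 h2
    omega
  unfold VS
  rw [h0, sum_union hdis]
  have e1 : ∑ j ∈ Ioc 0 ⌊Y / 2⌋₊, min 1 (Y / j - 1) = ⌊Y / 2⌋₊ := by
    have : ∀ j ∈ Ioc 0 ⌊Y / 2⌋₊, min (1 : ℝ) (Y / j - 1) = 1 := by
      intro j hj
      rw [mem_Ioc] at hj
      have hj0 : (0 : ℝ) < j := by exact_mod_cast hj.1
      have h2 : (j : ℝ) ≤ Y / 2 := (Nat.le_floor_iff (by linarith)).mp hj.2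
      apply min_eq_left
      have : 2 ≤ Y / j := by
        rw [le_div_iff₀ hj0]
        linarith
      linarith
    rw [sum_congr rfl this, sum_const, Nat.card_Ioc, nsmul_eq_mul, mul_one, Nat.sub_zero]
  have e2 : ∑ j ∈ Ioc ⌊Y / 2⌋₊ ⌊Y⌋₊, min 1 (Y / j - 1) =
      ∑ j ∈ Ioc ⌊Y / 2⌋₊ ⌊Y⌋₊, (Y * (1 / (j : ℝ)) - 1) := by
    refine sum_congr rfl fun j hj => ?_
    rw [mem_Ioc] at hj
    have h2 : Y / 2 < j := (Nat.floor_lt (by linarith)).mp hj.1
    have hj0 : (0 : ℝ) < j := by linarith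
    rw [mul_one_div]
    apply min_eq_right
    have : Y / j ≤ 2 := by
      rw [div_le_iff₀ hj0]
      linarith
    linarith
  rw [e1, e2, sum_sub_distrib, ← mul_sum, sum_const, Nat.card_Ioc, nsmul_eq_mul, mul_one, Nat.cast_sub hle]
  ring

theorem VS_bounds {Y : ℝ} (hY : 0 ≤ Y) : 0 ≤ VS Y ∧ VS Y ≤ Y := by
  unfold VS
  constructor
  · apply sum_nonneg
    intro j hj
    rw [mem_Ioc] at hj
    have hj0 : (0 : ℝ) < j := by exact_mod_cast hj.1
    have h2 : (j : ℝ) ≤ Y := (Nat.le_floor_iff hY).mp hj.2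
    apply le_min zero_le_one
    have : 1 ≤ Y / j := by
      rw [le_div_iff₀ hj0]
      linarith
    linarith
  · calc ∑ j ∈ Ioc 0 ⌊Y⌋₊, min 1 (Y / j - 1) ≤ ∑ _j ∈ Ioc 0 ⌊Y⌋₊, (1 : ℝ) :=
        sum_le_sum fun _ _ => min_le_left _ _
      _ = ⌊Y⌋₊ := by rw [sum_const, Nat.card_Ioc, nsmul_eq_mul, mul_one, Nat.sub_zero]
      _ ≤ Y := Nat.floor_le hY

theorem VS_approx {Y : ℝ} (hY : 1 ≤ Y) : |VS Y - (Y * Real.log 2 - 1 / 2)| ≤ 12 / Y := by
  have hlog2 : 0 < Real.log 2 := Real.log_pos (by norm_num)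
  have hlog2' : Real.log 2 < 0.6931471808 := Real.log_two_lt_d9
  have hY0 : 0 < Y := by linarith
  rcases lt_or_ge Y 2 with hY2 | hY2
  · have h1 := VS_bounds hY0.le
    have h2 : (6 : ℝ) ≤ 12 / Y := by
      rw [le_div_iff₀ hY0]
      linarith
    have h3 : Y * Real.log 2 ≤ 2 := by nlinarith
    have h4 : 0 ≤ Y * Real.log 2 := by positivity
    rw [abs_le]
    constructor <;> linarith [h1.1, h1.2]
  · have hle : ⌊Y / 2⌋₊ ≤ ⌊Y⌋₊ := Nat.floor_le_floor (by linarith)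
    rw [VS_eq hY0.le]
    set n := ⌊Y⌋₊ with hn
    set u := ⌊Y / 2⌋₊ with hu
    have n1 : (n : ℝ) ≤ Y := Nat.floor_le hY0.le
    have n2 : Y < n + 1 := Nat.lt_floor_add_one Y
    have u1 : (u : ℝ) ≤ Y / 2 := Nat.floor_le (by linarith)
    have u2 : Y / 2 < u + 1 := Nat.lt_floor_add_one (Y / 2)
    have hm := harm_mid hle
    set H := ∑ j ∈ Ioc u n, (1 : ℝ) / j with hH
    set t : ℝ := (n + 1 / 2 - Y) / Y with ht
    set s : ℝ := (2 * u + 1 - Y) / Y with hs
    have t1 : |t| ≤ 1 / (2 * Y) := by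
      rw [ht, abs_div, abs_of_pos hY0, div_le_div_iff₀ hY0 (by positivity)]
      have : |(n : ℝ) + 1 / 2 - Y| ≤ 1 / 2 := by
        rw [abs_le]
        constructor <;> linarith
      nlinarith
    have s1 : |s| ≤ 1 / Y := by
      rw [hs, abs_div, abs_of_pos hY0]
      apply div_le_div_of_nonneg_right _ hY0.le
      rw [abs_le]
      constructor <;> linarith
    have hY1 : 1 / Y ≤ 1 / 2 := one_div_le_one_div_of_le (by norm_num) hY2
    have hY3 : 1 / (2 * Y) ≤ 1 / 2 := one_div_le_one_div_of_le (by norm_num) (by linarith)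
    have t2 := log_one_add (t1.trans hY3)
    have s2 := log_one_add (s1.trans hY1)
    have t0 : 0 < 1 + t := by linarith [(abs_le.mp (t1.trans hY3)).1]
    have s0 : 0 < 1 + s := by linarith [(abs_le.mp (s1.trans hY1)).1]
    have e1 : Real.log ((2 * n + 1 : ℝ) / (2 * u + 1)) =
        Real.log 2 + Real.log (1 + t) - Real.log (1 + s) := by
      rw [← Real.log_mul (by norm_num) t0.ne', ← Real.log_div (by positivity) s0.ne']
      congr 1
      have a1 : 1 + t = (n + 1 / 2) / Y := by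
        rw [ht]
        field_simp
        ring
      have a2 : 1 + s = (2 * u + 1) / Y := by
        rw [hs]
        field_simp
        ring
      rw [a1, a2]
      have : (0 : ℝ) < 2 * u + 1 := by positivity
      field_simp
    have t3 : t ^ 2 ≤ (1 / (2 * Y)) ^ 2 := by
      rw [← sq_abs]
      exact pow_le_pow_left₀ (abs_nonneg _) t1 2
    have s3 : s ^ 2 ≤ (1 / Y) ^ 2 := by
      rw [← sq_abs]
      exact pow_le_pow_left₀ (abs_nonneg _) s1 2
    have hm2 : ((n : ℝ) - u) * (1 / (9 * ((u : ℝ) + 1) ^ 3)) ≤ 4 / 3 / Y ^ 2 := by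
      have b1 : (n : ℝ) - u ≤ 3 / 2 * Y := by linarith
      have b2 : 1 / (9 * ((u : ℝ) + 1) ^ 3) ≤ 1 / (9 * (Y / 2) ^ 3) := by
        apply one_div_le_one_div_of_le (by positivity)
        gcongr
      have b3 : 0 ≤ (n : ℝ) - u := by
        have : (u : ℝ) ≤ n := by exact_mod_cast hle
        linarith
      calc ((n : ℝ) - u) * (1 / (9 * ((u : ℝ) + 1) ^ 3)) ≤ (3 / 2 * Y) * (1 / (9 * (Y / 2) ^ 3)) :=
            mul_le_mul b1 b2 (by positivity) (by positivity)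
        _ = 4 / 3 / Y ^ 2 := by
            field_simp
            norm_num
    -- the main identity
    have hYt : Y * t = n + 1 / 2 - Y := by
      rw [ht]
      field_simp
    have hYs : Y * s = 2 * u + 1 - Y := by
      rw [hs]
      field_simp
    have key : Y * H - n + 2 * u - (Y * Real.log 2 - 1 / 2) =
        Y * (H - Real.log ((2 * n + 1 : ℝ) / (2 * u + 1))) + Y * (Real.log (1 + t) - t) -
          Y * (Real.log (1 + s) - s) := by
      rw [e1]
      have : Y * (H - (Real.log 2 + Real.log (1 + t) - Real.log (1 + s))) + Y * (Real.log (1 + t) - t) -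
          Y * (Real.log (1 + s) - s) = Y * H - Y * Real.log 2 - Y * t + Y * s := by ring
      rw [this, hYt, hYs]
      ring
    rw [key]
    have a1 : |Y * (H - Real.log ((2 * n + 1 : ℝ) / (2 * u + 1)))| ≤ 4 / 3 / Y := by
      rw [abs_mul, abs_of_pos hY0]
      calc Y * |H - Real.log ((2 * n + 1 : ℝ) / (2 * u + 1))| ≤ Y * (4 / 3 / Y ^ 2) :=
            mul_le_mul_of_nonneg_left (hm.trans hm2) hY0.le
        _ = 4 / 3 / Y := by
            field_simp
    have a2 : |Y * (Real.log (1 + t) - t)| ≤ 1 / 2 / Y := by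
      rw [abs_mul, abs_of_pos hY0]
      calc Y * |Real.log (1 + t) - t| ≤ Y * (2 * (1 / (2 * Y)) ^ 2) :=
            mul_le_mul_of_nonneg_left (t2.trans (by linarith)) hY0.le
        _ = 1 / 2 / Y := by
            field_simp
    have a3 : |Y * (Real.log (1 + s) - s)| ≤ 2 / Y := by
      rw [abs_mul, abs_of_pos hY0]
      calc Y * |Real.log (1 + s) - s| ≤ Y * (2 * (1 / Y) ^ 2) :=
            mul_le_mul_of_nonneg_left (s2.trans (by linarith)) hY0.le
        _ = 2 / Y := by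
            field_simp
    have a4 : 4 / 3 / Y + 1 / 2 / Y + 2 / Y ≤ 12 / Y := by
      rw [← add_div, ← add_div]
      apply div_le_div_of_nonneg_right _ hY0.le
      norm_num
    rw [abs_le] at a1 a2 a3 ⊢
    constructor <;> linarith [a1.1, a1.2, a2.1, a2.2, a3.1, a3.2]

end Pool.Agent.H537.BI
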