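import Pool.Agent.H537.BI.GG
import Pool.Agent.H537.BI.Vs
import Pool.Agent.H537.FG.An
import Pool.Agent.H537.FT.Ext

/-! The second order term of the sum over the small factor, and the sum over the large factor. -/

set_option autoImplicit false
set_option maxHeartbeats 1000000

open Finset

namespace Pool.Agent.H537.BI

open Pool.Agent.H537.FG Pool.Agent.H537.FT Pool.Agent.N914.MR

theorem filter_Fr_empty (s : Finset ℕ) : s.filter (Fr ∅) = s := by
  apply filter_true_of_mem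
  intro m _
  exact Fr_empty m

theorem wt_sum {Q X e : ℕ} (hQ : 1 ≤ Q) (he : 1 ≤ e) :
    ∑ j ∈ Ioc 0 (X / Q / e), wt Q X (e * j) = Q * VS ((X : ℝ) / (e * Q)) := by
  have hQ0 : (0 : ℝ) < Q := by exact_mod_cast hQ
  have he0 : (0 : ℝ) < e := by exact_mod_cast he
  have h1 : ⌊(X : ℝ) / (e * Q)⌋₊ = X / Q / e := by
    have : (X : ℝ) / (e * Q) = ((X : ℕ) : ℝ) / ((Q * e : ℕ) : ℝ) := by
      push_cast
      rw [mul_comm]
    rw [this, Nat.floor_div_natCast, Nat.floor_natCast, Nat.div_div_eq_div_mul]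
  unfold VS
  rw [h1, mul_sum]
  refine sum_congr rfl fun j hj => ?_
  rw [mem_Ioc] at hj
  have hj0 : (0 : ℝ) < j := by exact_mod_cast hj.1
  unfold wt
  rw [mul_min_of_nonneg _ _ hQ0.le]
  congr 1
  · ring
  · push_cast
    field_simp

theorem small_sum {h : ℕ → ℝ} {Ch : ℝ} (h0 : ∀ p, p.Prime → 0 ≤ h p)
    (h1 : ∀ p, p.Prime → h p ≤ Ch / p) (hCh : 0 ≤ Ch) {Q X : ℕ} (hQ : 1 ≤ Q) (hM : 2 ≤ X / Q) :
    |∑ m ∈ Ioc 0 (X / Q), gg h m * wt Q X m - (X * Real.log 2 * Sg h ∅ (X / Q) - Q / 2 * GG h (X / Q))| ≤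
      12 * (Ch * Real.log 4 + 1) * (Q * GG h (X / Q) / Real.log ((X / Q : ℕ) : ℝ)) := by
  classical
  set M := X / Q with hMd
  have hQ0 : (0 : ℝ) < Q := by exact_mod_cast hQ
  have hMQ : M * Q ≤ X := Nat.div_mul_le_self X Q
  have hX0 : (0 : ℝ) < X := by
    have : 1 ≤ X := by nlinarith
    exact_mod_cast this
  have hM0 : (0 : ℝ) < M := by
    have : 0 < M := by omega
    exact_mod_cast this
  have hlM : 0 < Real.log (M : ℝ) := Real.log_pos (by
    have : 1 < M := by omega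
    exact_mod_cast this)
  have e0 : ∑ m ∈ Ioc 0 M, gg h m * wt Q X m = ∑ e ∈ Sf ∅ M, hh h e * (Q * VS ((X : ℝ) / (e * Q))) := by
    have h2 := swap h ∅ (by simp) (fun m => wt Q X m) 0 M
    rw [filter_Fr_empty] at h2
    rw [h2]
    refine sum_congr rfl fun e he => ?_
    rw [mem_Sf] at he
    rw [filter_Fr_empty, Nat.zero_div, hMd, wt_sum hQ he.1.1]
  have e1 : X * Real.log 2 * Sg h ∅ M - Q / 2 * GG h M =
      ∑ e ∈ Sf ∅ M, hh h e * (Q * ((X : ℝ) / (e * Q) * Real.log 2 - 1 / 2)) := by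
    unfold Sg GG
    rw [mul_sum, mul_sum, ← sum_sub_distrib]
    refine sum_congr rfl fun e he => ?_
    rw [mem_Sf] at he
    have he0 : (0 : ℝ) < e := by exact_mod_cast he.1.1
    field_simp
  rw [e0, e1, ← sum_sub_distrib]
  calc |∑ e ∈ Sf ∅ M, (hh h e * (Q * VS ((X : ℝ) / (e * Q))) -
        hh h e * (Q * ((X : ℝ) / (e * Q) * Real.log 2 - 1 / 2)))| ≤
      ∑ e ∈ Sf ∅ M, |hh h e * (Q * VS ((X : ℝ) / (e * Q))) -
        hh h e * (Q * ((X : ℝ) / (e * Q) * Real.log 2 - 1 / 2))| := abs_sum_le_sum_abs _ _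
    _ ≤ ∑ e ∈ Sf ∅ M, (12 * Q ^ 2 / X) * (hh h e * e) := by
        refine sum_le_sum fun e he => ?_
        rw [mem_Sf] at he
        have he0 : (0 : ℝ) < e := by exact_mod_cast he.1.1
        have hY : 1 ≤ (X : ℝ) / (e * Q) := by
          rw [le_div_iff₀ (by positivity), one_mul]
          have : e * Q ≤ X := (Nat.mul_le_mul_right Q he.1.2).trans hMQ
          exact_mod_cast this
        have h2 := VS_approx hY
        have h3 := hh_nonneg h0 e
        rw [← mul_sub, ← mul_sub, abs_mul, abs_mul, abs_of_nonneg h3, abs_of_pos hQ0]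
        calc hh h e * (Q * |VS ((X : ℝ) / (e * Q)) - ((X : ℝ) / (e * Q) * Real.log 2 - 1 / 2)|) ≤
            hh h e * (Q * (12 / ((X : ℝ) / (e * Q)))) := by
              apply mul_le_mul_of_nonneg_left _ h3
              exact mul_le_mul_of_nonneg_left h2 hQ0.le
          _ = (12 * Q ^ 2 / X) * (hh h e * e) := by
              field_simp
    _ = 12 * Q ^ 2 / X * DD h M := by
        rw [← mul_sum]
        rfl
    _ ≤ 12 * Q ^ 2 / X * ((Ch * Real.log 4 + 1) * (M * GG h M) / Real.log M) := by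
        apply mul_le_mul_of_nonneg_left _ (by positivity)
        rw [le_div_iff₀ hlM, mul_comm]
        exact DD_le h0 h1 hCh M
    _ ≤ _ := by
        have hG0 : 0 ≤ GG h M := zero_le_one.trans (one_le_GG h0 (by omega))
        have hl4 : 0 < Real.log 4 := Real.log_pos (by norm_num)
        have h5 : (M : ℝ) * Q ≤ X := by exact_mod_cast hMQ
        have h6 : (Q : ℝ) ^ 2 / X * M ≤ Q := by
          rw [div_mul_eq_mul_div, div_le_iff₀ hX0]
          nlinarith
        calc 12 * (Q : ℝ) ^ 2 / X * ((Ch * Real.log 4 + 1) * (M * GG h M) / Real.log M) =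
            12 * (Ch * Real.log 4 + 1) * ((Q : ℝ) ^ 2 / X * M) * (GG h M / Real.log M) := by ring
          _ ≤ 12 * (Ch * Real.log 4 + 1) * Q * (GG h M / Real.log M) := by
              apply mul_le_mul_of_nonneg_right _ (by positivity)
              apply mul_le_mul_of_nonneg_left h6 (by positivity)
          _ = _ := by ring

/-- the singular sums at two places -/
theorem Sg_diff {h : ℕ → ℝ} {Ch : ℝ} (h0 : ∀ p, p.Prime → 0 ≤ h p)
    (h1 : ∀ p, p.Prime → h p ≤ Ch / p) (hCh : 0 ≤ Ch) {N : ℕ} (hN : 2 ≤ N)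
    (hlog : 6 * (Ch * Real.log 4 + 1) ≤ Real.log N) {K : ℕ} (hK : N ≤ K) :
    0 ≤ Sg h ∅ K - Sg h ∅ N ∧ Sg h ∅ K - Sg h ∅ N ≤
      12 * (Ch * Real.log 4 + 1) * GG h N / (N * Real.log N) := by
  have h2 : Sg h ∅ K - Sg h ∅ N = ∑ e ∈ (Sf ∅ K).filter (fun e => N < e), hh h e / e := by
    unfold Sg
    rw [← sum_filter_add_sum_filter_not (Sf ∅ K) (fun e => N < e)]
    have : (Sf ∅ K).filter (fun e => ¬ N < e) = Sf ∅ N := by
      ext e
      rw [mem_filter, mem_Sf, mem_Sf]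
      constructor
      · rintro ⟨⟨⟨h5, h6⟩, h7⟩, h8⟩
        exact ⟨⟨h5, by omega⟩, h7⟩
      · rintro ⟨⟨h5, h6⟩, h7⟩
        exact ⟨⟨⟨h5, by omega⟩, h7⟩, by omega⟩
    rw [this]
    ring
  rw [h2]
  exact ⟨sum_nonneg fun e _ => div_nonneg (hh_nonneg h0 e) (Nat.cast_nonneg _), tail_le h0 h1 hCh hN hlog K⟩

end Pool.Agent.H537.BI
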