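import Pool.Agent.H537.BI.An

/-! Assembly: the discrepancy over the large moduli has a second order term. -/

set_option autoImplicit false
set_option maxHeartbeats 1000000

open Finset

namespace Pool.Agent.H537.BI

open Pool.Agent.H537.FG Pool.Agent.H537.FT Pool.Agent.N914.MR

theorem DD_ge {h : ℕ → ℝ} (h0 : ∀ p, p.Prime → 0 ≤ h p) {N : ℕ} (hN : 1 ≤ N) (hsq : Squarefree N) :
    hh h N * N ≤ DD h N :=
  single_le_sum (f := fun e : ℕ => hh h e * (e : ℝ)) (fun e _ => mul_nonneg (hh_nonneg h0 e) (Nat.cast_nonneg _))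
    (mem_Sf.mpr ⟨⟨hN, le_rfl⟩, hsq⟩)

/-- one step changes `GG` only a little -/
theorem GG_step {h : ℕ → ℝ} {Ch : ℝ} (h0 : ∀ p, p.Prime → 0 ≤ h p)
    (h1 : ∀ p, p.Prime → h p ≤ Ch / p) (hCh : 0 ≤ Ch) {M N : ℕ} (hM : 2 ≤ M)
    (hlog : 6 * (Ch * Real.log 4 + 1) ≤ Real.log M) (hMN : M ≤ N) (hN : N ≤ M + 1) :
    0 ≤ GG h N - GG h M ∧ GG h N - GG h M ≤ 2 * (Ch * Real.log 4 + 1) * GG h M / Real.log M := by
  refine ⟨sub_nonneg.mpr (GG_mono h0 hMN), ?_⟩
  have hM0 : (0 : ℝ) < M := by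
    have : 0 < M := by omega
    exact_mod_cast this
  have hlM : 0 < Real.log (M : ℝ) := Real.log_pos (by
    have : 1 < M := by omega
    exact_mod_cast this)
  have hl4 : 0 < Real.log 4 := Real.log_pos (by norm_num)
  have hG0 : 0 ≤ GG h M := zero_le_one.trans (one_le_GG h0 (by omega))
  have hc : 0 < Ch * Real.log 4 + 1 := by positivity
  rcases Nat.lt_or_ge M N with h2 | h2
  · have hN1 : N = M + 1 := by omega
    subst hN1
    have e1 : GG h (M + 1) - GG h M ≤ if Squarefree (M + 1) then hh h (M + 1) else 0 := by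
      unfold GG
      have hs : Sf ∅ (M + 1) = if Squarefree (M + 1) then insert (M + 1) (Sf ∅ M) else Sf ∅ M := by
        split_ifs with h3
        · ext e
          rw [mem_insert, mem_Sf, mem_Sf]
          constructor
          · rintro ⟨⟨h4, h5⟩, h6⟩
            rcases Nat.lt_or_ge M e with h7 | h7
            · left
              omega
            · right
              exact ⟨⟨h4, h7⟩, h6⟩
          · rintro (h4 | ⟨⟨h4, h5⟩, h6⟩)
            · subst h4
              exact ⟨⟨by omega, le_rfl⟩, h3⟩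
            · exact ⟨⟨h4, by omega⟩, h6⟩
        · ext e
          rw [mem_Sf, mem_Sf]
          constructor
          · rintro ⟨⟨h4, h5⟩, h6⟩
            rcases Nat.lt_or_ge M e with h7 | h7
            · have : e = M + 1 := by omega
              subst this
              exact absurd h6 h3
            · exact ⟨⟨h4, h7⟩, h6⟩
          · rintro ⟨⟨h4, h5⟩, h6⟩
            exact ⟨⟨h4, by omega⟩, h6⟩
      rw [hs]
      split_ifs with h3
      · rw [sum_insert (by
          rw [mem_Sf]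
          omega)]
        linarith
      · linarith
    refine e1.trans ?_
    split_ifs with h3
    · have e2 := DD_ge h0 (N := M + 1) (by omega) h3
      have e3 := DD_le h0 h1 hCh (M + 1)
      have e4 := GG_double h0 h1 hCh (N := M) (by omega) hlog
      have e5 : GG h (M + 1) ≤ GG h (2 * M) := GG_mono h0 (by omega)
      have hM1 : (0 : ℝ) < ((M + 1 : ℕ) : ℝ) := by positivity
      have e6 : Real.log M ≤ Real.log ((M + 1 : ℕ) : ℝ) := Real.log_le_log hM0 (by push_cast; linarith)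
      have hh0 := hh_nonneg h0 (M + 1)
      rw [le_div_iff₀ hlM]
      have e7 : Real.log M * (hh h (M + 1) * ((M + 1 : ℕ) : ℝ)) ≤
          (Ch * Real.log 4 + 1) * (((M + 1 : ℕ) : ℝ) * GG h (M + 1)) := by
        refine le_trans ?_ e3
        exact mul_le_mul e6 e2 (by positivity) (by linarith)
      have e8 : ((M + 1 : ℕ) : ℝ) * (hh h (M + 1) * Real.log M) ≤
          ((M + 1 : ℕ) : ℝ) * ((Ch * Real.log 4 + 1) * GG h (M + 1)) := by linarith
      have e9 := le_of_mul_le_mul_left e8 hM1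
      have e10 : (Ch * Real.log 4 + 1) * GG h (M + 1) ≤ (Ch * Real.log 4 + 1) * (3 / 2 * GG h M) :=
        mul_le_mul_of_nonneg_left (e5.trans e4) hc.le
      have e11 : 0 ≤ (Ch * Real.log 4 + 1) * GG h M := by positivity
      linarith
    · positivity
  · have : N = M := by omega
    subst this
    rw [sub_self]
    positivity

/-- the second order term -/
theorem core {h : ℕ → ℝ} {Ch : ℝ} (h0 : ∀ p, p.Prime → 0 ≤ h p)
    (h1 : ∀ p, p.Prime → h p ≤ Ch / p) (hCh : 0 ≤ Ch) {X Q a S : ℕ} {W : ℕ → ℝ} {C κ : ℝ} {A' : Finset ℕ}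
    (hQ : 1 ≤ Q) (haQ : a ≤ Q) (haX : a ≤ X) (hWa : W a = 0) (hM : 2 ≤ (X - a) / Q)
    (hlog : 6 * (Ch * Real.log 4 + 1) ≤ Real.log (((X - a) / Q : ℕ) : ℝ)) (hMQ : (X - a) / Q ≤ 2 * Q)
    (hA' : ∀ p ∈ A', p.Prime) (hbig : ∀ p ∈ A', S < p) (hS : 1 ≤ S) (hC : 0 ≤ C) 
    (hW : ∀ q m : ℕ, Q < q → q ≤ 2 * Q → 1 ≤ m → m ≤ (X - a) / Q → W (a + q * m) ≠ 0 → Fr A' q)
    (hsmall : ∀ m y : ℕ, 1 ≤ m → m ≤ (X - a) / Q → Q ≤ y → y ≤ X →
      |cntW W y a m - C * (gg h m / m) * y| ≤ κ) :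
    |∑ q ∈ (Ioc Q (2 * Q)).filter (Fr A'), cntW W X a q -
        ∑ q ∈ (Ioc Q (2 * Q)).filter (Fr A'), C * (gg h q / q) * X + C * (Q / 2 * GG h ((X - a) / Q))| ≤
      2 * κ * (((X - a) / Q : ℕ) : ℝ) +
      C * (36 * (Ch * Real.log 4 + 1) * (Q * GG h ((X - a) / Q) / Real.log (((X - a) / Q : ℕ) : ℝ)) +
        (X * (CR Ch * √(6 / (Q : ℝ))) + a * (3 * CR Ch) +
        X * ((1 + Ch) * CR Ch * (1 + Real.log ((2 * Q : ℕ) : ℝ)) * ((A'.card : ℝ) / S)))) := by
  classical
  set M := (X - a) / Q with hMd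
  have hQ0 : (0 : ℝ) < Q := by exact_mod_cast hQ
  have hX0 : (0 : ℝ) ≤ X := Nat.cast_nonneg _
  have ha0 : (0 : ℝ) ≤ a := Nat.cast_nonneg _
  have hM0 : (0 : ℝ) < M := by
    have : 0 < M := by omega
    exact_mod_cast this
  have hlM : 0 < Real.log (M : ℝ) := Real.log_pos (by
    have : 1 < M := by omega
    exact_mod_cast this)
  have hl4 : 0 < Real.log 4 := Real.log_pos (by norm_num)
  have hlog2 : 0 < Real.log 2 := Real.log_pos (by norm_num)
  have hlog2' : Real.log 2 < 1 := Real.log_two_lt_d9.trans (by norm_num)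
  have hG0 : 0 ≤ GG h M := zero_le_one.trans (one_le_GG h0 (by omega))
  set c := Ch * Real.log 4 + 1 with hc
  have hc0 : 0 < c := by positivity
  have hXa : ((X - a : ℕ) : ℝ) = X - a := by
    push_cast [haX]
    ring
  have hsw := cntW_switch (W := W) (A := ∅) (A' := A') haQ hWa hQ haX
    (fun q m hq1 hq2 hm1 hm2 h5 => ⟨hW q m hq1 hq2 hm1 hm2 h5, Fr_empty m⟩)
  rw [filter_Fr_empty] at hsw
  -- one modulus
  have hone : ∀ m ∈ Ioc 0 M,
      |(cntW W (min (a + 2 * (m * Q)) X) a m - cntW W (a + m * Q) a m) -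
        C * (gg h m * wt Q (X - a) m)| ≤ 2 * κ := by
    intro m hm
    rw [mem_Ioc] at hm
    obtain ⟨hm1, hmM⟩ := hm
    have hm1' : 1 ≤ m := hm1
    have hm0 : (0 : ℝ) < m := by exact_mod_cast hm1
    have hmQX : a + m * Q ≤ X := by
      have : m * Q ≤ X - a := (Nat.le_div_iff_mul_le hQ).mp hmM
      omega
    have hmQ : Q ≤ m * Q := Nat.le_mul_of_pos_left Q hm1
    have c1 := hsmall m (a + m * Q) hm1' hmM (by omega) hmQX
    have c2 := hsmall m (min (a + 2 * (m * Q)) X) hm1' hmM (by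
      apply le_min
      · omega
      · omega) (min_le_right _ _)
    have c3 : C * (gg h m * wt Q (X - a) m) =
        C * (gg h m / m) * ((min (a + 2 * (m * Q)) X : ℕ) : ℝ) -
          C * (gg h m / m) * ((a + m * Q : ℕ) : ℝ) := by
      have d1 : wt Q (X - a) m = (((min (a + 2 * (m * Q)) X : ℕ) : ℝ) - ((a + m * Q : ℕ) : ℝ)) / m := by
        unfold wt
        rw [hXa]
        push_cast
        rcases le_total ((a : ℝ) + 2 * (m * Q)) X with hc | hc
        · rw [min_eq_left hc]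
          rw [min_eq_left]
          · field_simp
            ring
          · rw [le_sub_iff_add_le, le_div_iff₀ hm0]
            linarith
        · rw [min_eq_right hc]
          rw [min_eq_right]
          · field_simp
            ring
          · rw [sub_le_iff_le_add, div_le_iff₀ hm0]
            linarith
      rw [d1]
      ring
    rw [c3]
    have c4 : (cntW W (min (a + 2 * (m * Q)) X) a m - cntW W (a + m * Q) a m) -
        (C * (gg h m / m) * ((min (a + 2 * (m * Q)) X : ℕ) : ℝ) -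
          C * (gg h m / m) * ((a + m * Q : ℕ) : ℝ)) =
        (cntW W (min (a + 2 * (m * Q)) X) a m -
          C * (gg h m / m) * ((min (a + 2 * (m * Q)) X : ℕ) : ℝ)) -
        (cntW W (a + m * Q) a m - C * (gg h m / m) * ((a + m * Q : ℕ) : ℝ)) := by ring
    rw [c4]
    refine (abs_sub _ _).trans ?_
    linarith
  have hsum : |∑ m ∈ Ioc 0 M, (cntW W (min (a + 2 * (m * Q)) X) a m - cntW W (a + m * Q) a m) -
        C * ∑ m ∈ Ioc 0 M, gg h m * wt Q (X - a) m| ≤ 2 * κ * M := by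
    rw [mul_sum, ← sum_sub_distrib]
    refine (abs_sum_le_sum_abs _ _).trans ((sum_le_sum hone).trans ?_)
    rw [sum_const, Nat.card_Ioc, nsmul_eq_mul, Nat.sub_zero]
    apply le_of_eq
    ring
  rw [← hsw] at hsum
  -- the sum over the small factor
  have hsm := small_sum h0 h1 hCh (X := X - a) hQ hM
  rw [← hMd, ← hc, hXa] at hsm
  -- the singular sums
  obtain ⟨sd0, sd1⟩ := Sg_diff h0 h1 hCh hM hlog hMQ
  rw [← hc] at sd1
  have hT := TQ_approx h0 h1 hCh ∅ (by simp) hQ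
  have hbp : bp rc ∅ = 1 := by
    unfold bp
    simp
  rw [hbp, one_mul, card_empty, pow_zero, mul_one] at hT
  have hT3 := TQ_le h0 h1 hCh ∅ (by simp) hQ
  have hT0 : 0 ≤ TQ h ∅ Q := by
    unfold TQ
    exact sum_nonneg fun q _ => mul_nonneg (zero_le_one.trans (one_le_gg h0 q)) (by positivity)
  obtain ⟨d1, d2⟩ := TQ_ext h0 h1 hCh hQ hS (A := ∅) (A' := A') (empty_subset _) hA'
    (fun p hp _ => hbig p hp)
  have hB : ∑ q ∈ (Ioc Q (2 * Q)).filter (Fr A'), C * (gg h q / q) * X = C * (X * TQ h A' Q) := by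
    unfold TQ
    rw [mul_sum, mul_sum]
    refine sum_congr rfl fun q _ => ?_
    ring
  rw [hB]
  set T := TQ h ∅ Q with hTd
  set T' := TQ h A' Q with hT'd
  set N1 := ∑ q ∈ (Ioc Q (2 * Q)).filter (Fr A'), cntW W X a q with hN1
  set Z := ∑ m ∈ Ioc 0 M, gg h m * wt Q (X - a) m with hZ
  set S1 := Sg h ∅ M with hS1
  set S2 := Sg h ∅ (2 * Q) with hS2
  set G := GG h M with hGd
  have hX1 : 0 ≤ (X : ℝ) - a := by
    rw [← hXa]
    exact Nat.cast_nonneg _
  have hX2 : (X : ℝ) - a ≤ X := by linarith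
  -- identity
  have key : N1 - C * (X * T') + C * (Q / 2 * G) =
      (N1 - C * Z) + C * ((Z - ((X - a) * Real.log 2 * S1 - Q / 2 * G)) -
        (X - a) * Real.log 2 * (S2 - S1) - (X - a) * (T - Real.log 2 * S2) - a * T + X * (T - T')) := by ring
  have b1 : |(X - a) * Real.log 2 * (S2 - S1)| ≤ 24 * c * (Q * G / Real.log M) := by
    rw [abs_of_nonneg (by positivity)]
    have e1 : (X : ℝ) - a ≤ 2 * (M * Q) := by
      rw [← hXa]
      have e2 : X - a < (M + 1) * Q := by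
        exact (Nat.div_lt_iff_lt_mul hQ).mp (Nat.lt_succ_self M)
      have e3 : X - a ≤ 2 * (M * Q) := by nlinarith
      exact_mod_cast e3
    calc (X - a) * Real.log 2 * (S2 - S1) ≤ (2 * (M * Q)) * 1 * (12 * c * G / (M * Real.log M)) := by
          apply mul_le_mul _ sd1 sd0 (by positivity)
          exact mul_le_mul e1 hlog2'.le hlog2.le (by positivity)
      _ = 24 * c * (Q * G / Real.log M) := by
          field_simp
          ring
  have b2 : |(X - a) * (T - Real.log 2 * S2)| ≤ X * (CR Ch * √(6 / (Q : ℝ))) := by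
    rw [abs_mul, abs_of_nonneg hX1]
    exact mul_le_mul hX2 hT (abs_nonneg _) hX0
  have b3 : |a * T| ≤ a * (3 * CR Ch) := by
    rw [abs_of_nonneg (mul_nonneg ha0 hT0)]
    exact mul_le_mul_of_nonneg_left hT3 ha0
  have b4 : |X * (T - T')| ≤ X * ((1 + Ch) * CR Ch * (1 + Real.log ((2 * Q : ℕ) : ℝ)) * ((A'.card : ℝ) / S)) := by
    rw [abs_of_nonneg (mul_nonneg hX0 d1)]
    exact mul_le_mul_of_nonneg_left d2 hX0
  have b5 : |(Z - ((X - a) * Real.log 2 * S1 - Q / 2 * G)) -
        (X - a) * Real.log 2 * (S2 - S1) - (X - a) * (T - Real.log 2 * S2) - a * T + X * (T - T')| ≤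
      36 * c * (Q * G / Real.log M) + (X * (CR Ch * √(6 / (Q : ℝ))) + a * (3 * CR Ch) +
        X * ((1 + Ch) * CR Ch * (1 + Real.log ((2 * Q : ℕ) : ℝ)) * ((A'.card : ℝ) / S))) := by
    rw [abs_le] at b1 b2 b3 b4 hsm ⊢
    constructor <;> linarith [b1.1, b1.2, b2.1, b2.2, b3.1, b3.2, b4.1, b4.2, hsm.1, hsm.2]
  rw [key]
  refine (abs_add_le _ _).trans (add_le_add hsum ?_)
  rw [abs_mul, abs_of_nonneg hC]
  exact mul_le_mul_of_nonneg_left b5 hC

end Pool.Agent.H537.BI
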