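import Pool.Agent.H537.FG.Mult

/-! Sums of the multiplicative function `hh`. -/

set_option autoImplicit false
set_option maxHeartbeats 1000000

open Finset

namespace Pool.Agent.H537.BI

open Pool.Agent.H537.FG

/-- the sum of `hh` up to `N` -/
noncomputable def GG (h : ℕ → ℝ) (N : ℕ) : ℝ := ∑ e ∈ Sf ∅ N, hh h e

/-- the sum of `hh e * e` up to `N` -/
noncomputable def DD (h : ℕ → ℝ) (N : ℕ) : ℝ := ∑ e ∈ Sf ∅ N, hh h e * e

theorem mem_Sf {N e : ℕ} : e ∈ Sf ∅ N ↔ (1 ≤ e ∧ e ≤ N) ∧ Squarefree e := by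
  unfold Sf Fr
  simp [mem_filter, mem_Icc]

theorem GG_mono {h : ℕ → ℝ} (h0 : ∀ p, p.Prime → 0 ≤ h p) {M N : ℕ} (hMN : M ≤ N) : GG h M ≤ GG h N := by
  apply sum_le_sum_of_subset_of_nonneg
  · intro e he
    rw [mem_Sf] at he ⊢
    exact ⟨⟨he.1.1, he.1.2.trans hMN⟩, he.2⟩
  · intro e _ _
    exact hh_nonneg h0 e

theorem one_le_GG {h : ℕ → ℝ} (h0 : ∀ p, p.Prime → 0 ≤ h p) {N : ℕ} (hN : 1 ≤ N) : 1 ≤ GG h N := by
  have h1 : hh h 1 ≤ GG h N := single_le_sum (f := hh h) (fun e _ => hh_nonneg h0 e)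
    (mem_Sf.mpr ⟨⟨le_rfl, hN⟩, squarefree_one⟩)
  rwa [hh_one] at h1

theorem DD_nonneg {h : ℕ → ℝ} (h0 : ∀ p, p.Prime → 0 ≤ h p) (N : ℕ) : 0 ≤ DD h N :=
  sum_nonneg fun e _ => mul_nonneg (hh_nonneg h0 e) (Nat.cast_nonneg _)

theorem hh_mul {h : ℕ → ℝ} {p m : ℕ} (hp : p.Prime) (hsq : Squarefree (p * m)) : hh h (p * m) = h p * hh h m := by
  have hcop : Nat.Coprime p m := Nat.coprime_of_squarefree_mul hsq
  unfold hh
  rw [hcop.primeFactors_mul, prod_union hcop.disjoint_primeFactors, hp.primeFactors, prod_singleton]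

theorem fib {h : ℕ → ℝ} (h0 : ∀ p, p.Prime → 0 ≤ h p) {p : ℕ} (hp : p.Prime) (N : ℕ) :
    ∑ e ∈ (Sf ∅ N).filter (fun e => p ∣ e), hh h e * e ≤ h p * p * DD h (N / p) := by
  classical
  unfold DD
  rw [mul_sum]
  have h1 : ∑ e ∈ (Sf ∅ N).filter (fun e => p ∣ e), hh h e * e =
      ∑ m ∈ ((Sf ∅ N).filter (fun e => p ∣ e)).image (fun e => e / p), hh h (p * m) * (p * m : ℕ) := by
    rw [sum_image]
    · refine sum_congr rfl fun e he => ?_
      rw [mem_filter] at he
      rw [Nat.mul_div_cancel' he.2]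
    · intro e he e' he' hee
      rw [mem_coe, mem_filter] at he he'
      simp only at hee
      rw [← Nat.mul_div_cancel' he.2, ← Nat.mul_div_cancel' he'.2, hee]
  rw [h1]
  have hsub : ((Sf ∅ N).filter (fun e => p ∣ e)).image (fun e => e / p) ⊆ Sf ∅ (N / p) := by
    intro m hm
    rw [mem_image] at hm
    obtain ⟨e, he, rfl⟩ := hm
    rw [mem_filter, mem_Sf] at he
    obtain ⟨⟨⟨h2, h3⟩, h4⟩, h5⟩ := he
    rw [mem_Sf]
    exact ⟨⟨Nat.div_pos (Nat.le_of_dvd (by omega) h5) hp.pos, Nat.div_le_div_right h3⟩,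
      h4.squarefree_of_dvd (Nat.div_dvd_of_dvd h5)⟩
  refine le_trans ?_ (sum_le_sum_of_subset_of_nonneg hsub fun m _ _ =>
    mul_nonneg (mul_nonneg (h0 p hp) (Nat.cast_nonneg _)) (mul_nonneg (hh_nonneg h0 m) (Nat.cast_nonneg _)))
  refine sum_le_sum fun m hm => ?_
  rw [mem_image] at hm
  obtain ⟨e, he, rfl⟩ := hm
  rw [mem_filter, mem_Sf] at he
  rw [hh_mul hp (by rw [Nat.mul_div_cancel' he.2]; exact he.1.2)]
  push_cast
  apply le_of_eq
  ring

/-- the theorem of Hall and Tenenbaum for `hh` -/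
theorem DD_le {h : ℕ → ℝ} {Ch : ℝ} (h0 : ∀ p, p.Prime → 0 ≤ h p)
    (h1 : ∀ p, p.Prime → h p ≤ Ch / p) (hCh : 0 ≤ Ch) (N : ℕ) :
    Real.log N * DD h N ≤ (Ch * Real.log 4 + 1) * (N * GG h N) := by
  classical
  rcases Nat.eq_zero_or_pos N with hN | hN
  · subst hN
    simp
  have hN0 : (0 : ℝ) < N := by exact_mod_cast hN
  have e1 : Real.log N * DD h N = ∑ e ∈ Sf ∅ N, hh h e * e * Real.log e +
      ∑ e ∈ Sf ∅ N, hh h e * e * Real.log ((N : ℝ) / e) := by
    unfold DD
    rw [mul_sum, ← sum_add_distrib]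
    refine sum_congr rfl fun e he => ?_
    rw [mem_Sf] at he
    have he0 : (0 : ℝ) < e := by exact_mod_cast he.1.1
    rw [Real.log_div hN0.ne' he0.ne']
    ring
  have e2 : ∑ e ∈ Sf ∅ N, hh h e * e * Real.log ((N : ℝ) / e) ≤ N * GG h N := by
    unfold GG
    rw [mul_sum]
    refine sum_le_sum fun e he => ?_
    rw [mem_Sf] at he
    have he0 : (0 : ℝ) < e := by exact_mod_cast he.1.1
    have h2 : Real.log ((N : ℝ) / e) ≤ N / e := by
      have := Real.log_le_sub_one_of_pos (show 0 < (N : ℝ) / e by positivity)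
      linarith
    calc hh h e * e * Real.log ((N : ℝ) / e) ≤ hh h e * e * ((N : ℝ) / e) :=
          mul_le_mul_of_nonneg_left h2 (mul_nonneg (hh_nonneg h0 e) he0.le)
      _ = N * hh h e := by
          field_simp
  have e3 : ∑ e ∈ Sf ∅ N, hh h e * e * Real.log e ≤ Ch * Real.log 4 * (N * GG h N) := by
    have a1 : ∑ e ∈ Sf ∅ N, hh h e * e * Real.log e =
        ∑ p ∈ (Icc 1 N).filter Nat.Prime, Real.log p * ∑ e ∈ (Sf ∅ N).filter (fun e => p ∣ e), hh h e * e := by
      have a2 : ∀ e ∈ Sf ∅ N, hh h e * e * Real.log e =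
          ∑ p ∈ (Icc 1 N).filter Nat.Prime, if p ∣ e then Real.log p * (hh h e * e) else 0 := by
        intro e he
        rw [mem_Sf] at he
        have a3 : ((Icc 1 N).filter Nat.Prime).filter (fun p => p ∣ e) = e.primeFactors := by
          ext p
          rw [mem_filter, mem_filter, mem_Icc, Nat.mem_primeFactors]
          constructor
          · rintro ⟨⟨_, h3⟩, h4⟩
            exact ⟨h3, h4, by omega⟩
          · rintro ⟨h3, h4, _⟩
            exact ⟨⟨⟨h3.one_le, (Nat.le_of_dvd (by omega) h4).trans he.1.2⟩, h3⟩, h4⟩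
        rw [← sum_filter, a3, ← sum_mul, mul_comm]
        congr 1
        conv_lhs => rw [← Nat.prod_primeFactors_of_squarefree he.2]
        rw [Nat.cast_prod, Real.log_prod]
        intro p hp
        exact_mod_cast (Nat.prime_of_mem_primeFactors hp).ne_zero
      rw [sum_congr rfl a2, sum_comm]
      refine sum_congr rfl fun p _ => ?_
      rw [← sum_filter, mul_sum]
    have a4 : ∀ p ∈ (Icc 1 N).filter Nat.Prime,
        Real.log p * ∑ e ∈ (Sf ∅ N).filter (fun e => p ∣ e), hh h e * e ≤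
          Ch * ∑ m ∈ Sf ∅ N, if p ≤ N / m then Real.log p * (hh h m * m) else 0 := by
      intro p hp
      rw [mem_filter, mem_Icc] at hp
      have hp0 : (0 : ℝ) < p := by exact_mod_cast hp.2.pos
      have hlp : 0 ≤ Real.log p := Real.log_natCast_nonneg p
      have a5 : h p * p ≤ Ch := by
        have := h1 p hp.2
        rwa [le_div_iff₀ hp0] at this
      have a6 : DD h (N / p) = ∑ m ∈ (Sf ∅ N).filter (fun m => p ≤ N / m), hh h m * m := by
        unfold DD
        apply sum_congr _ fun _ _ => rfl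
        ext m
        rw [mem_filter, mem_Sf, mem_Sf]
        constructor
        · rintro ⟨⟨h3, h4⟩, h5⟩
          refine ⟨⟨⟨h3, h4.trans (Nat.div_le_self _ _)⟩, h5⟩, ?_⟩
          rw [Nat.le_div_iff_mul_le (by omega)]
          rw [Nat.le_div_iff_mul_le hp.2.pos] at h4
          rwa [mul_comm]
        · rintro ⟨⟨⟨h3, _⟩, h5⟩, h6⟩
          refine ⟨⟨h3, ?_⟩, h5⟩
          rw [Nat.le_div_iff_mul_le (by omega)] at h6
          rw [Nat.le_div_iff_mul_le hp.2.pos]
          rwa [mul_comm]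
      calc Real.log p * ∑ e ∈ (Sf ∅ N).filter (fun e => p ∣ e), hh h e * e ≤
          Real.log p * (h p * p * DD h (N / p)) := mul_le_mul_of_nonneg_left (fib h0 hp.2 N) hlp
        _ ≤ Real.log p * (Ch * DD h (N / p)) := by
            apply mul_le_mul_of_nonneg_left _ hlp
            exact mul_le_mul_of_nonneg_right a5 (DD_nonneg h0 _)
        _ = _ := by
            rw [← sum_filter, a6, ← mul_sum]
            ring
    rw [a1]
    refine (sum_le_sum a4).trans ?_
    rw [← mul_sum, sum_comm, mul_assoc]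
    apply mul_le_mul_of_nonneg_left _ hCh
    unfold GG
    rw [mul_sum, mul_sum]
    refine sum_le_sum fun m hm => ?_
    rw [mem_Sf] at hm
    have hm0 : (0 : ℝ) < m := by exact_mod_cast hm.1.1
    rw [← sum_filter, ← sum_mul]
    have a7 : ∑ p ∈ ((Icc 1 N).filter Nat.Prime).filter (fun p => p ≤ N / m), Real.log p ≤ Real.log 4 * (N / m) := by
      have a8 : ∑ p ∈ ((Icc 1 N).filter Nat.Prime).filter (fun p => p ≤ N / m), Real.log p ≤
          Chebyshev.theta ((N : ℝ) / m) := by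
        unfold Chebyshev.theta
        apply sum_le_sum_of_subset_of_nonneg
        · intro p hp
          rw [mem_filter, mem_filter, mem_Icc] at hp
          rw [mem_filter, mem_Ioc]
          refine ⟨⟨hp.1.2.pos, ?_⟩, hp.1.2⟩
          rw [Nat.floor_div_natCast, Nat.floor_natCast]
          exact hp.2
        · intro p _ _
          exact Real.log_natCast_nonneg p
      exact a8.trans (Chebyshev.theta_le_log4_mul_x (by positivity))
    calc (∑ p ∈ ((Icc 1 N).filter Nat.Prime).filter (fun p => p ≤ N / m), Real.log p) * (hh h m * m) ≤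
        Real.log 4 * (N / m) * (hh h m * m) :=
          mul_le_mul_of_nonneg_right a7 (mul_nonneg (hh_nonneg h0 m) hm0.le)
      _ = Real.log 4 * (N * hh h m) := by
          field_simp
  rw [e1]
  linarith

theorem GG_double {h : ℕ → ℝ} {Ch : ℝ} (h0 : ∀ p, p.Prime → 0 ≤ h p)
    (h1 : ∀ p, p.Prime → h p ≤ Ch / p) (hCh : 0 ≤ Ch) {N : ℕ} (hN : 1 ≤ N)
    (hlog : 6 * (Ch * Real.log 4 + 1) ≤ Real.log N) : GG h (2 * N) ≤ 3 / 2 * GG h N := by
  classical
  have hN0 : (0 : ℝ) < N := by exact_mod_cast hN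
  set C2 := Ch * Real.log 4 + 1 with hC2
  have hl4 : 0 < Real.log 4 := Real.log_pos (by norm_num)
  have hC2p : 1 ≤ C2 := by
    have : 0 ≤ Ch * Real.log 4 := by positivity
    linarith
  have h2 := DD_le h0 h1 hCh (2 * N)
  rw [← hC2] at h2
  have hlog2 : Real.log N ≤ Real.log ((2 * N : ℕ) : ℝ) := by
    apply Real.log_le_log hN0
    push_cast
    linarith
  have hD0 := DD_nonneg h0 (2 * N)
  have h3 : 6 * DD h (2 * N) ≤ 2 * (N * GG h (2 * N)) := by
    have a1 : 6 * C2 * DD h (2 * N) ≤ C2 * (((2 * N : ℕ) : ℝ) * GG h (2 * N)) := by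
      refine le_trans ?_ h2
      exact mul_le_mul_of_nonneg_right (hlog.trans hlog2) hD0
    push_cast at a1
    have hC20 : 0 < C2 := by linarith
    have a2 : C2 * (6 * DD h (2 * N)) ≤ C2 * (2 * (N * GG h (2 * N))) := by linarith
    exact le_of_mul_le_mul_left a2 hC20
  -- the difference
  have h4 : GG h (2 * N) - GG h N = ∑ e ∈ (Sf ∅ (2 * N)).filter (fun e => N < e), hh h e := by
    unfold GG
    rw [← sum_filter_add_sum_filter_not (Sf ∅ (2 * N)) (fun e => N < e)]
    have : (Sf ∅ (2 * N)).filter (fun e => ¬ N < e) = Sf ∅ N := by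
      ext e
      rw [mem_filter, mem_Sf, mem_Sf]
      constructor
      · rintro ⟨⟨⟨h5, h6⟩, h7⟩, h8⟩
        exact ⟨⟨h5, by omega⟩, h7⟩
      · rintro ⟨⟨h5, h6⟩, h7⟩
        exact ⟨⟨⟨h5, by omega⟩, h7⟩, by omega⟩
    rw [this]
    ring
  have h5 : N * (GG h (2 * N) - GG h N) ≤ DD h (2 * N) := by
    rw [h4, mul_sum]
    calc ∑ e ∈ (Sf ∅ (2 * N)).filter (fun e => N < e), N * hh h e ≤
        ∑ e ∈ (Sf ∅ (2 * N)).filter (fun e => N < e), hh h e * e := by
          refine sum_le_sum fun e he => ?_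
          rw [mem_filter] at he
          have : (N : ℝ) ≤ e := by exact_mod_cast he.2.le
          have := hh_nonneg h0 e
          nlinarith
      _ ≤ _ := sum_le_sum_of_subset_of_nonneg (filter_subset _ _) fun e _ _ =>
          mul_nonneg (hh_nonneg h0 e) (Nat.cast_nonneg _)
  have h6 : (N : ℝ) * (3 * (GG h (2 * N) - GG h N)) ≤ N * GG h (2 * N) := by linarith
  have h7 := le_of_mul_le_mul_left h6 hN0
  linarith

theorem GG_double_pow {h : ℕ → ℝ} {Ch : ℝ} (h0 : ∀ p, p.Prime → 0 ≤ h p)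
    (h1 : ∀ p, p.Prime → h p ≤ Ch / p) (hCh : 0 ≤ Ch) {N : ℕ} (hN : 1 ≤ N)
    (hlog : 6 * (Ch * Real.log 4 + 1) ≤ Real.log N) (j : ℕ) : GG h (2 ^ j * N) ≤ (3 / 2) ^ j * GG h N := by
  induction j with
  | zero => simp
  | succ j ih =>
    have h2 : 2 ^ (j + 1) * N = 2 * (2 ^ j * N) := by ring
    have hp : 1 ≤ 2 ^ j := Nat.one_le_two_pow
    rw [h2]
    have h3 : N ≤ 2 ^ j * N := Nat.le_mul_of_pos_left N hp
    refine (GG_double h0 h1 hCh (hN.trans h3) (hlog.trans (Real.log_le_log (by exact_mod_cast hN)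
      (by exact_mod_cast h3)))).trans ?_
    rw [pow_succ]
    linarith

/-- the tail -/
theorem tail_le {h : ℕ → ℝ} {Ch : ℝ} (h0 : ∀ p, p.Prime → 0 ≤ h p)
    (h1 : ∀ p, p.Prime → h p ≤ Ch / p) (hCh : 0 ≤ Ch) {N : ℕ} (hN : 2 ≤ N)
    (hlog : 6 * (Ch * Real.log 4 + 1) ≤ Real.log N) (K : ℕ) :
    ∑ e ∈ (Sf ∅ K).filter (fun e => N < e), hh h e / e ≤
      12 * (Ch * Real.log 4 + 1) * GG h N / (N * Real.log N) := by
  classical
  have hN0 : (0 : ℝ) < N := by
    have : 0 < N := by omega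
    exact_mod_cast this
  set C2 := Ch * Real.log 4 + 1 with hC2
  have hl4 : 0 < Real.log 4 := Real.log_pos (by norm_num)
  have hC2p : 1 ≤ C2 := by
    have : 0 ≤ Ch * Real.log 4 := by positivity
    linarith
  have hlN : 0 < Real.log N := by linarith
  have hG0 : 0 ≤ GG h N := zero_le_one.trans (one_le_GG h0 (by omega))
  -- dyadic version
  have key : ∀ j : ℕ, ∑ e ∈ (Sf ∅ (2 ^ j * N)).filter (fun e => N < e), hh h e / e ≤
      12 * C2 * GG h N / (N * Real.log N) * (1 - (3 / 4) ^ j) := by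
    intro j
    induction j with
    | zero =>
      have : (Sf ∅ (2 ^ 0 * N)).filter (fun e => N < e) = ∅ := by
        ext e
        rw [mem_filter, mem_Sf]
        simp
        omega
      rw [this]
      simp
    | succ j ih =>
      set Y := 2 ^ j * N with hY
      have hp : 1 ≤ 2 ^ j := Nat.one_le_two_pow
      have hNY : N ≤ Y := Nat.le_mul_of_pos_left N hp
      have hYN : (2 ^ (j + 1) * N : ℕ) = 2 * Y := by
        rw [hY]
        ring
      have hY0 : (0 : ℝ) < Y := lt_of_lt_of_le hN0 (by exact_mod_cast hNY)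
      have hsplit : (Sf ∅ (2 * Y)).filter (fun e => N < e) ⊆
          (Sf ∅ Y).filter (fun e => N < e) ∪ (Sf ∅ (2 * Y)).filter (fun e => Y < e) := by
        intro e he
        rw [mem_filter, mem_Sf] at he
        rw [mem_union, mem_filter, mem_filter, mem_Sf, mem_Sf]
        rcases Nat.lt_or_ge Y e with h2 | h2
        · right
          exact ⟨he.1, h2⟩
        · left
          exact ⟨⟨⟨he.1.1.1, h2⟩, he.1.2⟩, he.2⟩
      have hnn : ∀ e : ℕ, 0 ≤ hh h e / (e : ℝ) := fun e => div_nonneg (hh_nonneg h0 e) (Nat.cast_nonneg _)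
      have b1 : ∑ e ∈ (Sf ∅ (2 * Y)).filter (fun e => N < e), hh h e / (e : ℝ) ≤
          ∑ e ∈ (Sf ∅ Y).filter (fun e => N < e), hh h e / (e : ℝ) +
            ∑ e ∈ (Sf ∅ (2 * Y)).filter (fun e => Y < e), hh h e / (e : ℝ) :=
        (sum_le_sum_of_subset_of_nonneg hsplit fun e _ _ => hnn e).trans
          (by
            have h5 := sum_union_inter (s₁ := (Sf ∅ Y).filter (fun e => N < e))
              (s₂ := (Sf ∅ (2 * Y)).filter (fun e => Y < e)) (f := fun e : ℕ => hh h e / (e : ℝ))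
            have h6 : 0 ≤ ∑ e ∈ (Sf ∅ Y).filter (fun e => N < e) ∩ (Sf ∅ (2 * Y)).filter (fun e => Y < e),
              hh h e / (e : ℝ) := sum_nonneg fun e _ => hnn e
            linarith)
      have b2 : ∑ e ∈ (Sf ∅ (2 * Y)).filter (fun e => Y < e), hh h e / (e : ℝ) ≤ 1 / (Y : ℝ) ^ 2 * DD h (2 * Y) := by
        unfold DD
        rw [mul_sum]
        refine (sum_le_sum fun e he => ?_).trans (sum_le_sum_of_subset_of_nonneg (filter_subset _ _)
          fun e _ _ => mul_nonneg (by positivity) (mul_nonneg (hh_nonneg h0 e) (Nat.cast_nonneg _)))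
        rw [mem_filter] at he
        have h3 : (Y : ℝ) ≤ e := by exact_mod_cast he.2.le
        have he0 : (0 : ℝ) < e := lt_of_lt_of_le hY0 h3
        have h4 := hh_nonneg h0 e
        calc hh h e / e = hh h e * e * (1 / (e : ℝ) ^ 2) := by
              field_simp
          _ ≤ hh h e * e * (1 / (Y : ℝ) ^ 2) := by
              apply mul_le_mul_of_nonneg_left _ (by positivity)
              apply one_div_le_one_div_of_le (by positivity)
              exact pow_le_pow_left₀ hY0.le h3 2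
          _ = 1 / (Y : ℝ) ^ 2 * (hh h e * e) := by ring
      have b3 : DD h (2 * Y) ≤ C2 * (2 * Y * GG h (2 * Y)) / Real.log N := by
        rw [le_div_iff₀ hlN]
        have h3 := DD_le h0 h1 hCh (2 * Y)
        rw [← hC2] at h3
        push_cast at h3
        refine le_trans ?_ h3
        rw [mul_comm]
        apply mul_le_mul_of_nonneg_right _ (DD_nonneg h0 _)
        apply Real.log_le_log hN0
        have : (N : ℝ) ≤ Y := by exact_mod_cast hNY
        linarith
      have b4 : GG h (2 * Y) ≤ (3 / 2) ^ (j + 1) * GG h N := by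
        rw [← hYN]
        exact GG_double_pow h0 h1 hCh (by omega) (by rw [← hC2]; exact hlog) (j + 1)
      have hYr : (Y : ℝ) = 2 ^ j * N := by
        rw [hY]
        push_cast
        ring
      have b5 : ∑ e ∈ (Sf ∅ (2 * Y)).filter (fun e => Y < e), hh h e / (e : ℝ) ≤
          3 * C2 * GG h N / (N * Real.log N) * (3 / 4) ^ j := by
        refine b2.trans ?_
        calc 1 / (Y : ℝ) ^ 2 * DD h (2 * Y) ≤ 1 / (Y : ℝ) ^ 2 * (C2 * (2 * Y * GG h (2 * Y)) / Real.log N) :=
              mul_le_mul_of_nonneg_left b3 (by positivity)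
          _ ≤ 1 / (Y : ℝ) ^ 2 * (C2 * (2 * Y * ((3 / 2) ^ (j + 1) * GG h N)) / Real.log N) := by
              apply mul_le_mul_of_nonneg_left _ (by positivity)
              apply div_le_div_of_nonneg_right _ hlN.le
              apply mul_le_mul_of_nonneg_left _ (by linarith)
              exact mul_le_mul_of_nonneg_left b4 (by positivity)
          _ = 3 * C2 * GG h N / (N * Real.log N) * (3 / 4) ^ j := by
              rw [hYr, pow_succ]
              have h5 : ((3 : ℝ) / 4) ^ j = (3 / 2) ^ j / 2 ^ j := by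
                rw [← div_pow]
                norm_num
              rw [h5]
              field_simp
              ring
      rw [hYN]
      refine b1.trans ((add_le_add ih b5).trans (le_of_eq ?_))
      rw [pow_succ]
      ring
  obtain ⟨j, hj⟩ : ∃ j : ℕ, K ≤ 2 ^ j * N := by
    refine ⟨K, ?_⟩
    calc K ≤ 2 ^ K := Nat.lt_two_pow_self.le
      _ ≤ 2 ^ K * N := Nat.le_mul_of_pos_right _ (by omega)
  refine le_trans (sum_le_sum_of_subset_of_nonneg ?_ fun e _ _ =>
    div_nonneg (hh_nonneg h0 e) (Nat.cast_nonneg _)) ((key j).trans ?_)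
  · intro e he
    rw [mem_filter, mem_Sf] at he ⊢
    exact ⟨⟨⟨he.1.1.1, he.1.1.2.trans hj⟩, he.1.2⟩, he.2⟩
  · have : (0 : ℝ) ≤ (3 / 4) ^ j := by positivity
    have h3 : 0 ≤ 12 * C2 * GG h N / (N * Real.log N) := by positivity
    nlinarith

end Pool.Agent.H537.BI
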